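import Pool.Agent.OH.Stmts

/-!
Choice of the parameters, elementary inequalities (project OneHead). Proof:
`Pool/Agent/OH/PAPER.md`, section ARI.
-/

set_option autoImplicit false

namespace Pool.TSF

namespace ARIAux

/-- the choice of the side of the cubes -/
theorem exists_w (d G N B : ℕ) (hG : 1 ≤ G) (hB : B ^ (d + 1) * G ≤ N) :
    ∃ w, B ≤ w ∧ w ^ (d + 1) * G ≤ N ∧ N < (w + 1) ^ (d + 1) * G := by
  classical
  have hb : ∀ k, k ^ (d + 1) * G ≤ N → k ≤ N := by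
    intro k hk
    have h1 : k ≤ k ^ (d + 1) := Nat.le_self_pow (by omega) k
    nlinarith
  refine ⟨Nat.findGreatest (fun k => k ^ (d + 1) * G ≤ N) N, ?_, ?_, ?_⟩
  · exact Nat.le_findGreatest (hb B hB) hB
  · exact Nat.findGreatest_spec (P := fun k => k ^ (d + 1) * G ≤ N) (hb B hB) hB
  · by_contra hcon
    have hcon' := not_lt.mp hcon
    have := Nat.le_findGreatest (P := fun k => k ^ (d + 1) * G ≤ N) (hb _ hcon') hcon'
    omega

theorem key (d n s T A Γ : ℕ) (hd : 1 ≤ d) (hs : 30 ≤ s) (hn2 : 2 * s ≤ n)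
    (hΓ : 2 ≤ Γ) (hT : s ≤ T)
    (H : ∀ w em lam s0 kap : ℕ, 0 < w → 2 ≤ em → A * w ^ d ≤ 2 ^ lam → Γ ^ (w ^ d) ≤ 2 ^ kap →
      (em + 1) * lam + s0 + kap ≤ s →
      (T / w + 1 + T / s + T / w / em) * (lam + s0) + T / w * lam + (T / s + T / w / em) * kap ≤
        32 * s →
      2 ^ s0 ≤ 4 * n ^ 2 * (2 * (em + 1) * (s + 1))) :
    s ^ (d + 2) ≤ (48 * d * T) ^ (d + 1) * Nat.clog 2 Γ *
      (Nat.clog 2 A + Nat.clog 2 n) ^ d := by
  by_contra hcon
  have hcon := not_le.mp hcon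
  obtain ⟨G, hG⟩ : ∃ G, G = Nat.clog 2 Γ := ⟨_, rfl⟩
  obtain ⟨c, hc⟩ : ∃ c, c = Nat.clog 2 n := ⟨_, rfl⟩
  obtain ⟨Λ, hΛ⟩ : ∃ Λ, Λ = Nat.clog 2 A + Nat.clog 2 n := ⟨_, rfl⟩
  rw [← hG, ← hΛ] at hcon
  have hG1 : 1 ≤ G := by
    rw [hG]
    exact Nat.clog_pos (by norm_num) hΓ
  have hΓG : Γ ≤ 2 ^ G := by
    rw [hG]
    exact Nat.le_pow_clog (by norm_num) Γ
  have hnc : n ≤ 2 ^ c := by
    rw [hc]
    exact Nat.le_pow_clog (by norm_num) n
  have hAc : A ≤ 2 ^ (Nat.clog 2 A) := Nat.le_pow_clog (by norm_num) A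
  have hc6 : 6 ≤ c := by
    by_contra h
    have h5 : c ≤ 5 := by omega
    have : (2 : ℕ) ^ c ≤ 2 ^ 5 := Nat.pow_le_pow_right (by norm_num) h5
    omega
  have hcΛ : c ≤ Λ := by omega
  have hΛ6 : 6 ≤ Λ := by omega
  -- (*)
  have hstar : (48 * d) ^ (d + 1) * G * Λ ^ d < s := by
    have h1 : (48 * d * s) ^ (d + 1) * G * Λ ^ d ≤ (48 * d * T) ^ (d + 1) * G * Λ ^ d := by
      gcongr
    have h2 : s ^ (d + 1) * ((48 * d) ^ (d + 1) * G * Λ ^ d) < s ^ (d + 1) * s := by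
      calc s ^ (d + 1) * ((48 * d) ^ (d + 1) * G * Λ ^ d)
          = (48 * d * s) ^ (d + 1) * G * Λ ^ d := by
            rw [mul_pow (48 * d) s]
            ring
        _ ≤ _ := h1
        _ < s ^ (d + 2) := hcon
        _ = s ^ (d + 1) * s := by ring
    exact lt_of_mul_lt_mul_left h2 (Nat.zero_le _)
  have hs1 : 48 * 48 * d * Λ < s := by
    have h1 : 48 * (48 * d) ≤ (48 * d) ^ (d + 1) := by
      rw [pow_succ']
      have : 48 ≤ (48 * d) ^ d := by
        calc 48 ≤ 48 * d := by omega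
          _ ≤ (48 * d) ^ d := Nat.le_self_pow (by omega) _
      calc 48 * (48 * d) = (48 * d) * 48 := by ring
        _ ≤ (48 * d) * (48 * d) ^ d := Nat.mul_le_mul_left _ this
    have h2 : Λ ≤ Λ ^ d := Nat.le_self_pow (by omega) _
    calc 48 * 48 * d * Λ = (48 * (48 * d)) * 1 * Λ := by ring
      _ ≤ (48 * d) ^ (d + 1) * G * Λ ^ d := by gcongr
      _ < s := hstar
  have hdΛ : Λ ≤ d * Λ := Nat.le_mul_of_pos_left _ (by omega)
  have hdΛ6 : 6 ≤ d * Λ := by omega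
  have hs1' : 2304 * (d * Λ) < s := by
    have : 48 * 48 * d * Λ = 2304 * (d * Λ) := by ring
    omega
  -- the side of the cubes
  obtain ⟨w, hw1, hw2, hw3⟩ := exists_w d G (s * Λ) (48 * d * Λ) hG1 (by
    calc (48 * d * Λ) ^ (d + 1) * G = ((48 * d) ^ (d + 1) * G * Λ ^ d) * Λ := by
          rw [mul_pow (48 * d) Λ]
          ring
      _ ≤ s * Λ := Nat.mul_le_mul_right _ hstar.le)
  have hw1' : 48 * (d * Λ) ≤ w := by
    have : 48 * d * Λ = 48 * (d * Λ) := by ring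
    omega
  have hw0 : 0 < w := by omega
  have hws : w ≤ s := by
    by_contra h
    have h' := not_le.mp h
    have h1 : w * w ≤ w ^ (d + 1) * G := by
      calc w * w = w ^ (1 + 1) * 1 := by ring
        _ ≤ w ^ (d + 1) * G := Nat.mul_le_mul (Nat.pow_le_pow_right hw0 (by omega)) hG1
    have h2 : s * Λ ≤ s * s := Nat.mul_le_mul_left _ (by omega)
    have h3 : s * s < w * w := Nat.mul_lt_mul_of_lt_of_le h' h'.le (by omega)
    omega
  -- the parameters
  obtain ⟨q, hq⟩ : ∃ q, q = s / (4 * (d * Λ)) := ⟨_, rfl⟩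
  have hq1 : q * (4 * (d * Λ)) ≤ s := by
    rw [hq]
    exact Nat.div_mul_le_self _ _
  have hq2 : s < (q + 1) * (4 * (d * Λ)) := by
    rw [hq, mul_comm]
    exact Nat.lt_mul_div_succ _ (by omega)
  have hq3 : 576 ≤ q := by
    by_contra h
    have h' : q + 1 ≤ 576 := by omega
    have : (q + 1) * (4 * (d * Λ)) ≤ 576 * (4 * (d * Λ)) := Nat.mul_le_mul_right _ h'
    omega
  obtain ⟨em, hem⟩ : ∃ em, em + 1 = q := ⟨q - 1, by omega⟩
  have hem2 : s ≤ 16 * (d * Λ) * em := by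
    have h1 : (q + 1) * (4 * (d * Λ)) = 4 * (d * Λ) * em + 8 * (d * Λ) := by
      rw [← hem]
      ring
    have h2 : 16 * (d * Λ) * em = 4 * (4 * (d * Λ) * em) := by ring
    omega
  obtain ⟨kap, hkap⟩ : ∃ kap, kap = w ^ d * G := ⟨_, rfl⟩
  have hkap1 : kap * w ≤ s * Λ := by
    calc kap * w = w ^ (d + 1) * G := by
          rw [hkap]
          ring
      _ ≤ s * Λ := hw2
  have hkap2 : 48 * kap ≤ s := by
    have h1 : (48 * kap) * Λ ≤ s * Λ := by
      calc (48 * kap) * Λ = kap * (48 * Λ) := by ring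
        _ ≤ kap * w := Nat.mul_le_mul_left _ (by omega)
        _ ≤ s * Λ := hkap1
    exact Nat.le_of_mul_le_mul_right h1 (by omega)
  -- the main inequality for the real quotient `T / w`
  have hmain : 24 * (d * T * Λ) < s * w := by
    have h1 : (48 * (d * T * Λ)) ^ (d + 1) * G < (2 * (s * w)) ^ (d + 1) * G := by
      calc (48 * (d * T * Λ)) ^ (d + 1) * G
          = ((48 * d * T) ^ (d + 1) * G * Λ ^ d) * Λ := by
            rw [show 48 * (d * T * Λ) = 48 * d * T * Λ by ring, mul_pow (48 * d * T) Λ]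
            ring
        _ < s ^ (d + 2) * Λ := Nat.mul_lt_mul_of_pos_right hcon (by omega)
        _ = s ^ (d + 1) * (s * Λ) := by ring
        _ ≤ s ^ (d + 1) * ((2 * w) ^ (d + 1) * G) := by
            refine Nat.mul_le_mul_left _ (hw3.le.trans ?_)
            refine Nat.mul_le_mul_right _ (Nat.pow_le_pow_left (by omega) _)
        _ = (2 * (s * w)) ^ (d + 1) * G := by
            rw [show 2 * (s * w) = s * (2 * w) by ring, mul_pow s (2 * w)]
            ring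
    have h2 := lt_of_mul_lt_mul_right h1 (Nat.zero_le _)
    have h3 := lt_of_pow_lt_pow_left₀ _ (Nat.zero_le _) h2
    omega
  -- the hypothesis applies
  have hA' : A * w ^ d ≤ 2 ^ (d * Λ) := by
    calc A * w ^ d ≤ 2 ^ (Nat.clog 2 A) * (2 ^ c) ^ d := by
          refine Nat.mul_le_mul hAc (Nat.pow_le_pow_left (by omega) _)
      _ = 2 ^ (Nat.clog 2 A + c * d) := by rw [← pow_mul, ← pow_add]
      _ ≤ 2 ^ (d * Λ) := by
          refine Nat.pow_le_pow_right (by norm_num) ?_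
          rw [hΛ, hc]
          nlinarith [Nat.zero_le (Nat.clog 2 A)]
  have hΓ' : Γ ^ (w ^ d) ≤ 2 ^ kap := by
    calc Γ ^ (w ^ d) ≤ (2 ^ G) ^ (w ^ d) := Nat.pow_le_pow_left hΓG _
      _ = 2 ^ kap := by rw [← pow_mul, hkap, mul_comm]
  have hlam1 : 4 * ((em + 1) * (d * Λ)) ≤ s := by
    rw [hem]
    calc 4 * (q * (d * Λ)) = q * (4 * (d * Λ)) := by ring
      _ ≤ s := hq1
  have hsum1 : (em + 1) * (d * Λ) + (4 * c + 3) + kap ≤ s := by omega
  have hsum2 : (T / w + 1 + T / s + T / w / em) * (d * Λ + (4 * c + 3)) + T / w * (d * Λ) +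
      (T / s + T / w / em) * kap ≤ 32 * s := by
    obtain ⟨t1, ht1⟩ : ∃ t1, t1 = T / w := ⟨_, rfl⟩
    obtain ⟨t2, ht2⟩ : ∃ t2, t2 = T / s := ⟨_, rfl⟩
    obtain ⟨t3, ht3⟩ : ∃ t3, t3 = T / w / em := ⟨_, rfl⟩
    rw [← ht3, ← ht1, ← ht2]
    have e1 : t1 * w ≤ T := by
      rw [ht1]
      exact Nat.div_mul_le_self _ _
    have e2 : t2 * s ≤ T := by
      rw [ht2]
      exact Nat.div_mul_le_self _ _
    have e3 : t3 * em ≤ t1 := by
      rw [ht3, ← ht1]
      exact Nat.div_mul_le_self _ _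
    have e4 : t3 ≤ t1 := by
      rw [ht3, ht1]
      exact Nat.div_le_self _ _
    have e5 : t2 ≤ t1 := by
      rw [ht2, ht1]
      exact Nat.div_le_div_left hws hw0
    have e6 : w ≤ T := hws.trans hT
    have e7 : d * Λ + (4 * c + 3) ≤ 6 * (d * Λ) := by omega
    -- multiply by `w`
    refine Nat.le_of_mul_le_mul_right (c := w) ?_ hw0
    have f1 : (t1 + 1 + t2 + t3) * (d * Λ + (4 * c + 3)) * w ≤ 24 * (d * T * Λ) := by
      have g1 : (t1 + 1 + t2 + t3) * w ≤ 4 * T := by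
        have g2 : t2 * w ≤ t1 * w := Nat.mul_le_mul_right _ e5
        have g3 : t3 * w ≤ t1 * w := Nat.mul_le_mul_right _ e4
        have g4 : (t1 + 1 + t2 + t3) * w = t1 * w + w + t2 * w + t3 * w := by ring
        omega
      calc (t1 + 1 + t2 + t3) * (d * Λ + (4 * c + 3)) * w
          = ((t1 + 1 + t2 + t3) * w) * (d * Λ + (4 * c + 3)) := by ring
        _ ≤ (4 * T) * (6 * (d * Λ)) := Nat.mul_le_mul g1 e7
        _ = 24 * (d * T * Λ) := by ring
    have f2 : t1 * (d * Λ) * w ≤ d * T * Λ := by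
      calc t1 * (d * Λ) * w = (t1 * w) * (d * Λ) := by ring
        _ ≤ T * (d * Λ) := Nat.mul_le_mul_right _ e1
        _ = d * T * Λ := by ring
    have f3 : t2 * kap * w ≤ d * T * Λ := by
      calc t2 * kap * w = t2 * (kap * w) := by ring
        _ ≤ t2 * (s * Λ) := Nat.mul_le_mul_left _ hkap1
        _ = (t2 * s) * Λ := by ring
        _ ≤ T * (d * Λ) := Nat.mul_le_mul e2 hdΛ
        _ = d * T * Λ := by ring
    have f4 : t3 * kap * w ≤ d * T * Λ := by
      -- `t3 * kap * w ≤ t3 * s * Λ ≤ 16 d Λ * em * t3 * Λ ≤ 16 d Λ * Λ * t1`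
      have g1 : t3 * kap * w ≤ 16 * (d * Λ) * Λ * t1 := by
        calc t3 * kap * w = t3 * (kap * w) := by ring
          _ ≤ t3 * (s * Λ) := Nat.mul_le_mul_left _ hkap1
          _ ≤ t3 * ((16 * (d * Λ) * em) * Λ) := by gcongr
          _ = 16 * (d * Λ) * Λ * (t3 * em) := by ring
          _ ≤ 16 * (d * Λ) * Λ * t1 := Nat.mul_le_mul_left _ e3
      have g2 : 16 * (d * Λ) * t1 ≤ T := by
        calc 16 * (d * Λ) * t1 ≤ w * t1 := Nat.mul_le_mul_right _ (by omega)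
          _ = t1 * w := by ring
          _ ≤ T := e1
      calc t3 * kap * w ≤ 16 * (d * Λ) * Λ * t1 := g1
        _ = (16 * (d * Λ) * t1) * Λ := by ring
        _ ≤ T * (d * Λ) := Nat.mul_le_mul g2 hdΛ
        _ = d * T * Λ := by ring
    have f5 : ((t1 + 1 + t2 + t3) * (d * Λ + (4 * c + 3)) + t1 * (d * Λ) + (t2 + t3) * kap) * w
        = (t1 + 1 + t2 + t3) * (d * Λ + (4 * c + 3)) * w + t1 * (d * Λ) * w + t2 * kap * w +
          t3 * kap * w := by ring
    have f6 : 32 * s * w = 32 * (s * w) := by ring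
    rw [f5, f6]
    omega
  have hfin := H w em (d * Λ) (4 * c + 3) kap hw0 (by omega) hA' hΓ' hsum1 hsum2
  -- contradiction
  have h1 : 8 * n ^ 4 ≤ 2 ^ (4 * c + 3) := by
    calc 8 * n ^ 4 ≤ 8 * (2 ^ c) ^ 4 := Nat.mul_le_mul_left _ (Nat.pow_le_pow_left hnc _)
      _ = 2 ^ (4 * c + 3) := by
        rw [← pow_mul, pow_add, mul_comm c 4]
        ring
  have h2 : 4 * n ^ 2 * (2 * (em + 1) * (s + 1)) < 8 * n ^ 4 := by
    have g1 : em + 1 < n := by
      have : em + 1 ≤ (em + 1) * (d * Λ) := Nat.le_mul_of_pos_right _ (by omega)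
      omega
    have g2 : (em + 1) * (s + 1) < n * n :=
      Nat.mul_lt_mul_of_lt_of_le g1 (by omega) (by omega)
    have g3 : 0 < 8 * n ^ 2 := by
      have : 0 < n ^ 2 := Nat.pow_pos (by omega)
      omega
    calc 4 * n ^ 2 * (2 * (em + 1) * (s + 1)) = 8 * n ^ 2 * ((em + 1) * (s + 1)) := by ring
      _ < 8 * n ^ 2 * (n * n) := Nat.mul_lt_mul_of_pos_left g2 g3
      _ = 8 * n ^ 4 := by ring
  omega

/-- the binary logarithm, rounded up -/
theorem clog_le (k : ℕ) (hk : 1 ≤ k) : (Nat.clog 2 k : ℝ) ≤ Real.logb 2 k + 1 := by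
  rcases Nat.lt_or_ge 1 k with h | h
  · have h0 : 0 < Nat.clog 2 k := Nat.clog_pos (by norm_num) h
    have h1 : 2 ^ (Nat.clog 2 k - 1) < k := Nat.pow_pred_clog_lt_self (by norm_num) h
    have h2 : ((Nat.clog 2 k - 1 : ℕ) : ℝ) ≤ Real.logb 2 k := by
      rw [Real.le_logb_iff_rpow_le (by norm_num) (by exact_mod_cast hk), Real.rpow_natCast]
      exact_mod_cast h1.le
    have h3 : ((Nat.clog 2 k - 1 : ℕ) : ℝ) = (Nat.clog 2 k : ℝ) - 1 := by
      rw [Nat.cast_sub h0, Nat.cast_one]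
    linarith
  · have : k = 1 := by omega
    subst this
    simp

theorem num (d : ℕ) (hd : 1 ≤ d) :
    400 * (9600 : ℝ) ^ (d + 1) * (7 / 5) ^ d ≤ 300000 ^ (d + 1) := by
  induction d, hd using Nat.le_induction with
  | base => norm_num
  | succ d hd ih =>
    have h0 : 0 ≤ 400 * (9600 : ℝ) ^ (d + 1) * (7 / 5) ^ d := by positivity
    calc 400 * (9600 : ℝ) ^ (d + 1 + 1) * (7 / 5) ^ (d + 1)
        = (400 * (9600 : ℝ) ^ (d + 1) * (7 / 5) ^ d) * (9600 * (7 / 5)) := by ring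
      _ ≤ (400 * (9600 : ℝ) ^ (d + 1) * (7 / 5) ^ d) * 300000 :=
          mul_le_mul_of_nonneg_left (by norm_num) h0
      _ ≤ 300000 ^ (d + 1) * 300000 := mul_le_mul_of_nonneg_right ih (by norm_num)
      _ = 300000 ^ (d + 1 + 1) := by ring

end ARIAux

theorem ari : Stmt_ARI := by
  intro d n s T A Γ hd hs hn hn2 hA hΓ hT H
  have key := ARIAux.key d n s T A Γ hd hs hn2 hΓ hT H
  have key' : (s : ℝ) ^ (d + 2) ≤ (48 * d * T) ^ (d + 1) * Nat.clog 2 Γ *
      (Nat.clog 2 A + Nat.clog 2 n) ^ d := by exact_mod_cast key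
  have hn0 : 60 ≤ n := by omega
  have hnR : (60 : ℝ) ≤ n := by exact_mod_cast hn0
  have hnR' : (n : ℝ) ≤ 200 * s := by exact_mod_cast hn
  have hAR : (1 : ℝ) ≤ A := by exact_mod_cast hA
  have hΓR : (2 : ℝ) ≤ Γ := by exact_mod_cast hΓ
  have hG1 : 1 ≤ Real.logb 2 Γ := by
    rw [Real.le_logb_iff_rpow_le (by norm_num) (by linarith)]
    simpa using hΓR
  have hL1 : 5 ≤ Real.logb 2 n := by
    rw [Real.le_logb_iff_rpow_le (by norm_num) (by linarith)]
    have : (2 : ℝ) ^ (5 : ℝ) = 32 := by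
      rw [show (5 : ℝ) = ((5 : ℕ) : ℝ) by norm_num, Real.rpow_natCast]
      norm_num
    linarith
  have hL2 : 0 ≤ Real.logb 2 A := Real.logb_nonneg (by norm_num) hAR
  have c1 : (Nat.clog 2 Γ : ℝ) ≤ 2 * Real.logb 2 Γ := by
    have := ARIAux.clog_le Γ (by omega)
    linarith
  have c2 : (Nat.clog 2 A + Nat.clog 2 n : ℝ) ≤ 7 / 5 * (Real.logb 2 A + Real.logb 2 n) := by
    have h1 := ARIAux.clog_le A hA
    have h2 := ARIAux.clog_le n (by omega)
    linarith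
  have hL0 : 0 ≤ Real.logb 2 A + Real.logb 2 n := by linarith
  have hT0 : (0 : ℝ) ≤ d * T := by positivity
  calc (n : ℝ) ^ (d + 2) ≤ (200 * s) ^ (d + 2) := pow_le_pow_left₀ (by linarith) hnR' _
    _ = 200 ^ (d + 2) * (s : ℝ) ^ (d + 2) := mul_pow _ _ _
    _ ≤ 200 ^ (d + 2) * ((48 * d * T) ^ (d + 1) * Nat.clog 2 Γ *
          (Nat.clog 2 A + Nat.clog 2 n) ^ d) :=
        mul_le_mul_of_nonneg_left key' (by positivity)
    _ ≤ 200 ^ (d + 2) * ((48 * d * T) ^ (d + 1) * (2 * Real.logb 2 Γ) *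
          (7 / 5 * (Real.logb 2 A + Real.logb 2 n)) ^ d) := by
        gcongr
    _ = (400 * 9600 ^ (d + 1) * (7 / 5) ^ d) * ((d * T) ^ (d + 1) * Real.logb 2 Γ *
          (Real.logb 2 A + Real.logb 2 n) ^ d) := by
        rw [mul_pow (7 / 5 : ℝ), show (48 * (d : ℝ) * T) = 48 * (d * T) by ring,
          mul_pow (48 : ℝ), show (9600 : ℝ) = 200 * 48 by norm_num, mul_pow (200 : ℝ)]
        ring
    _ ≤ 300000 ^ (d + 1) * ((d * T) ^ (d + 1) * Real.logb 2 Γ *
          (Real.logb 2 A + Real.logb 2 n) ^ d) := by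
        refine mul_le_mul_of_nonneg_right (ARIAux.num d hd) ?_
        have : 0 ≤ Real.logb 2 Γ := by linarith
        positivity
    _ = (300000 * d * T) ^ (d + 1) * Real.logb 2 Γ *
          (Real.logb 2 A + Real.logb 2 n) ^ d := by
        rw [show (300000 * (d : ℝ) * T) = 300000 * (d * T) by ring, mul_pow (300000 : ℝ)]
        ring

end Pool.TSF
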