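import Pool.Agent.OH.Stmts

set_option autoImplicit false

namespace Pool.TSF

open Polynomial

/-- A cube which has not been visited is blank. -/
theorem blk_blank (hBOX : Stmt_BOX) : Stmt_BLK := by
  intro V Γ d M f w ρ b t₀ hw
  induction t₀ with
  | zero =>
    intro _ x _
    rfl
  | succ t ih =>
    intro h x hx
    have ih' := ih (fun t' ht' => h t' (Nat.lt_succ_of_lt ht')) x hx
    have hne : glob w ρ b x ≠ (M.conf f t).pt := by
      intro he
      apply h t (Nat.lt_succ_self t)
      have h1 := (hBOX d w ρ b (glob w ρ b x) hw).1
      have h2 := (hBOX d w ρ b x hw).2.2.1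
      rw [h2] at h1
      have h3 := h1.1 hx
      rw [he] at h3
      exact h3
    have h4 : (M.conf f (t + 1)).tape (glob w ρ b x) = (M.conf f t).tape (glob w ρ b x) := by
      change Function.update (M.conf f t).tape (M.conf f t).pt _ (glob w ρ b x) = _
      exact Function.update_of_ne hne _ _
    rw [h4]
    exact ih'

end Pool.TSF
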