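import Pool.Agent.OH.Stmts

/-!
Cubes: positions in a cube.
-/

set_option autoImplicit false

namespace Pool.TSF

namespace BOXAux

lemma shift_none {d : ℕ} (x : Fin d → ℤ) : shift x none = x := rfl

lemma shift_up {d : ℕ} (x : Fin d → ℤ) (i : Fin d) :
    shift x (some (i, true)) = Function.update x i (x i + 1) := rfl

lemma shift_dn {d : ℕ} (x : Fin d → ℤ) (i : Fin d) :
    shift x (some (i, false)) = Function.update x i (x i - 1) := rfl

lemma div_iff {w : ℕ} (hw : 0 < w) (a b : ℤ) :
    (0 ≤ a - w * b ∧ a - w * b < w) ↔ a / w = b := by
  have hw' : (0 : ℤ) < w := by exact_mod_cast hw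
  constructor
  · rintro ⟨h1, h2⟩
    have h3 : a = (a - w * b) + w * b := by ring
    rw [h3, Int.add_mul_ediv_left _ _ hw'.ne', Int.ediv_eq_zero_of_lt h1 h2, zero_add]
  · rintro rfl
    have h1 := Int.emod_nonneg a hw'.ne'
    have h2 := Int.emod_lt_of_pos a hw'
    have h3 := Int.emod_add_mul_ediv a w
    constructor <;> linarith

end BOXAux

open BOXAux in
theorem box : Stmt_BOX := by
  intro d w ρ b x hw
  refine ⟨?_, ?_, ?_, ?_⟩
  · constructor
    · intro h
      funext i
      exact (div_iff hw (x i + ρ) (b i)).1 (h i)
    · intro h i
      have := congrFun h i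
      exact (div_iff hw (x i + ρ) (b i)).2 this
  · funext i
    unfold glob loc
    ring
  · funext i
    unfold glob loc
    ring
  · intro mv
    rcases mv with _ | ⟨i, c⟩
    · rfl
    · rcases c with _ | _
      · rw [shift_dn, shift_dn]
        funext j
        by_cases h : j = i
        · subst h
          simp only [loc, Function.update_self]
          ring
        · simp only [loc, Function.update_of_ne h]
      · rw [shift_up, shift_up]
        funext j
        by_cases h : j = i
        · subst h
          simp only [loc, Function.update_self]
          ring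
        · simp only [loc, Function.update_of_ne h]

end Pool.TSF
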