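import Pool.Agent.TSF.Final

/-!
Off-line machines with one work head on a `d`-dimensional tape, with random access to the
coefficients of the input polynomial over the field with two elements.
-/

set_option autoImplicit false

namespace Pool.TSF

open Polynomial

/-- A machine with one work head on the tape `ℤ ^ d` (cells with contents in `Γ`, all equal to
`blank` at the beginning) and random access to the input polynomial. In state `v`, with the
symbol `γ` in the cell under the head, it reads the coefficient `x` of `X ^ pos v γ` of the input,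
writes the claims `out v γ x`, replaces the content of the cell by `write v γ x`, moves the head
to the same or a neighbouring cell (`move v γ x`) and passes to the state `next v γ x`.
The claim `(d, j, y)` says: the coefficient of `X ^ j` of the irreducible factor of degree `d`
is `y`. -/
structure Mach (V Γ : Type) (d : ℕ) where
  /-- the initial state -/
  start : V
  /-- the blank symbol -/
  blank : Γ
  /-- the position of the input read -/
  pos : V → Γ → ℕ
  /-- the next state -/
  next : V → Γ → ZMod 2 → V
  /-- the symbol written -/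
  write : V → Γ → ZMod 2 → Γ
  /-- the move of the work head -/
  move : V → Γ → ZMod 2 → Option (Fin d × Bool)
  /-- the claims written -/
  out : V → Γ → ZMod 2 → Set (ℕ × ℕ × ZMod 2)

/-- The neighbouring cell: `none` does not move, `(i, true)` adds one to the coordinate `i` and
`(i, false)` subtracts one. -/
def shift {d : ℕ} (x : Fin d → ℤ) : Option (Fin d × Bool) → (Fin d → ℤ)
  | none => x
  | some (i, true) => Function.update x i (x i + 1)
  | some (i, false) => Function.update x i (x i - 1)

/-- Configurations: state, position of the work head, content of the tape. -/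
structure Conf (V Γ : Type) (d : ℕ) where
  st : V
  pt : Fin d → ℤ
  tape : (Fin d → ℤ) → Γ

namespace Mach

variable {V Γ : Type} {d : ℕ} (M : Mach V Γ d)

/-- The step with answer `x`. -/
def stepx (C : Conf V Γ d) (x : ZMod 2) : Conf V Γ d where
  st := M.next C.st (C.tape C.pt) x
  pt := shift C.pt (M.move C.st (C.tape C.pt) x)
  tape := Function.update C.tape C.pt (M.write C.st (C.tape C.pt) x)

/-- The coefficient of the input read in the configuration `C`. -/
noncomputable def bit (f : (ZMod 2)[X]) (C : Conf V Γ d) : ZMod 2 :=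
  f.coeff (M.pos C.st (C.tape C.pt))

/-- The configuration after `t` steps on the input `f`. -/
noncomputable def conf (f : (ZMod 2)[X]) : ℕ → Conf V Γ d
  | 0 => ⟨M.start, 0, fun _ => M.blank⟩
  | t + 1 => M.stepx (conf f t) (M.bit f (conf f t))

/-- The claims written in the step from the configuration `C`. -/
def wr (f : (ZMod 2)[X]) (C : Conf V Γ d) : Set (ℕ × ℕ × ZMod 2) :=
  M.out C.st (C.tape C.pt) (M.bit f C)

/-- The claims written in the first `T` steps on the input `f`. -/
def claims (f : (ZMod 2)[X]) (T : ℕ) : Set (ℕ × ℕ × ZMod 2) :=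
  {x | ∃ t < T, x ∈ M.wr f (M.conf f t)}

/-- In the first `T` steps on the input `f` the machine finds a nontrivial factor: for some
irreducible factor `P` of `f` with `deg P < deg f` it writes all coefficients of `P`, and no wrong
claim about these coefficients. -/
def Finds (f : (ZMod 2)[X]) (T : ℕ) : Prop :=
  ∃ P : (ZMod 2)[X], Irreducible P ∧ P ∣ f ∧ P.natDegree < f.natDegree ∧
    ∀ j < P.natDegree, ∀ y, (P.natDegree, j, y) ∈ M.claims f T ↔ y = P.coeff j

/-- All coefficients of `g` (degree `μ`) are claimed on the input `g * h`, and nothing wrong about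
them. -/
def Succ (T μ : ℕ) (g h : (ZMod 2)[X]) : Prop :=
  ∀ j < μ, ∀ y, (μ, j, y) ∈ M.claims (g * h) T ↔ y = g.coeff j

end Mach

/-! ### Cubes -/

/-- The number of the cube of side `w` (with shift `ρ`) of the cell `x`. -/
def blk {d : ℕ} (w : ℕ) (ρ : ℤ) (x : Fin d → ℤ) : Fin d → ℤ := fun i => (x i + ρ) / w

/-- The position in the cube `b`. -/
def loc {d : ℕ} (w : ℕ) (ρ : ℤ) (b x : Fin d → ℤ) : Fin d → ℤ := fun i => x i + ρ - w * b i

/-- The cell of the cube `b` with position `x` in the cube. -/
def glob {d : ℕ} (w : ℕ) (ρ : ℤ) (b x : Fin d → ℤ) : Fin d → ℤ := fun i => x i - ρ + w * b i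

/-- The cube `[0, w)^d`. -/
def InBox {d : ℕ} (w : ℕ) (x : Fin d → ℤ) : Prop := ∀ i, 0 ≤ x i ∧ x i < w

/-! ### The simulation in a cube -/

namespace Mach

variable {V Γ : Type} {d : ℕ} (M : Mach V Γ d)

open Classical in
/-- The simulation of the steps in one cube: a local configuration, and the list of the next
entries (state and position) into the cube. -/
noncomputable def sim (w : ℕ) (c₀ : Conf V Γ d × List (V × (Fin d → ℤ))) :
    Prog (Conf V Γ d × List (V × (Fin d → ℤ))) where
  start := c₀
  pos := fun _ c => M.pos c.1.st (c.1.tape c.1.pt)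
  next := fun _ c x =>
    if InBox w (M.stepx c.1 x).pt then (M.stepx c.1 x, c.2) else
      match c.2 with
      | [] => (M.stepx c.1 x, [])
      | e :: l => (⟨e.1, e.2, (M.stepx c.1 x).tape⟩, l)
  out := fun _ c x => M.out c.1.st (c.1.tape c.1.pt) x

/-- The cube at time `t`. -/
noncomputable def bk (f : (ZMod 2)[X]) (w : ℕ) (ρ : ℤ) (t : ℕ) : Fin d → ℤ :=
  blk w ρ (M.conf f t).pt

open Classical in
/-- The entries into the cube `b` at the times `t + 1, ..., t + n`. -/
noncomputable def ents (f : (ZMod 2)[X]) (w : ℕ) (ρ : ℤ) (b : Fin d → ℤ) :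
    ℕ → ℕ → List (V × (Fin d → ℤ))
  | _, 0 => []
  | t, n + 1 => (if M.bk f w ρ (t + 1) = b ∧ M.bk f w ρ t ≠ b then
      [((M.conf f (t + 1)).st, loc w ρ b (M.conf f (t + 1)).pt)] else []) ++ ents f w ρ b (t + 1) n

end Mach

open Classical in
/-- The number of times `t ≤ t' < u` with `β t' = b`. -/
noncomputable def cnt {B : Type} (β : ℕ → B) (b : B) (t u : ℕ) : ℕ :=
  ((Finset.Ico t u).filter (fun t' => β t' = b)).card

open Classical in
/-- The number of entries into `b` at the times `t + 1, ..., t + n`. -/
noncomputable def ecnt {B : Type} (β : ℕ → B) (b : B) (t n : ℕ) : ℕ :=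
  ((Finset.Ico t (t + n)).filter (fun t' => β (t' + 1) = b ∧ β t' ≠ b)).card

open Classical in
/-- The number of changes before time `T`. -/
noncomputable def chg {B : Type} (β : ℕ → B) (T : ℕ) : ℕ :=
  ((Finset.range (T - 1)).filter (fun t' => β t' ≠ β (t' + 1))).card

/-- The initial content of the local tape, from a table on `[0, w)^d`. -/
def tb {Γ : Type} {d : ℕ} (w : ℕ) (γ₀ : Γ) (θ : (Fin d → Fin w) → Γ) (x : Fin d → ℤ) : Γ :=
  if h : ∀ i, 0 ≤ x i ∧ (x i).toNat < w then θ (fun i => ⟨(x i).toNat, (h i).2⟩) else γ₀

/-- Positions in `[0, w)^d` as integer points. -/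
def ip {d w : ℕ} (x : Fin d → Fin w) : Fin d → ℤ := fun i => ((x i : ℕ) : ℤ)

end Pool.TSF
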