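import Pool.Agent.OH.Stmts

/-!
The entries into a cube: length of the list, and positions (module ENT).
-/

set_option autoImplicit false

namespace Pool.TSF

open Polynomial

theorem ent (hBOX : Stmt_BOX) : Stmt_ENT := by
  classical
  intro V Γ d M f w ρ b t n hw
  induction n generalizing t with
  | zero =>
    refine ⟨?_, ?_⟩
    · simp [Mach.ents, ecnt]
    · intro e he
      simp [Mach.ents] at he
  | succ n ih =>
    obtain ⟨h1, h2⟩ := ih (t + 1)
    refine ⟨?_, ?_⟩
    · rw [Mach.ents, List.length_append, h1]
      unfold ecnt
      have h3 : Finset.Ico t (t + (n + 1)) = insert t (Finset.Ico (t + 1) (t + 1 + n)) := by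
        ext u
        simp only [Finset.mem_Ico, Finset.mem_insert]
        omega
      rw [h3, Finset.filter_insert]
      split_ifs with h
      · rw [Finset.card_insert_of_notMem (by simp)]
        simp only [List.length_singleton]
        omega
      · simp only [List.length_nil, zero_add]
    · intro e he
      rw [Mach.ents, List.mem_append] at he
      rcases he with he | he
      · split_ifs at he with h
        · rw [List.mem_singleton] at he
          subst he
          exact (hBOX d w ρ b _ hw).1.2 h.1
        · simp at he
      · exact h2 e he

end Pool.TSF
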