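import Pool.Agent.OH.Stmts

/-!
Lower bound for finding a factor on machines with one work head: averaging, and the choice of the
parameters.
-/

set_option autoImplicit false

namespace Pool.TSF

open Polynomial

namespace FINAux

variable {V Γ : Type} {d : ℕ} (M : Mach V Γ d)

open Prog in
lemma finds_succ {m T : ℕ} {g h : (ZMod 2)[X]} (hg : g ∈ irrF m) (hh : h ∈ irrF (m + 1))
    (hf : M.Finds (g * h) T) : M.Succ T m g h ∨ M.Succ T (m + 1) h g := by
  rw [mem_irrF] at hg hh
  obtain ⟨P, hP, hdvd, -, hcl⟩ := hf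
  rcases hP.prime.dvd_or_dvd hdvd with h1 | h1
  · left
    have h2 := eq_of_dvd hP hg.1 h1
    subst h2
    rw [hg.2] at hcl
    exact hcl
  · right
    have h2 := eq_of_dvd hP hh.1 h1
    subst h2
    rw [hh.2] at hcl
    intro j hj y
    rw [mul_comm]
    exact hcl j hj y

end FINAux

open FINAux

theorem fin (hUNI : Stmt_UNI) (hSHO : Stmt_SHO) (hPAIR : Stmt_PAIR) (hARI : Stmt_ARI) :
    Stmt_FIN := by
  classical
  intro m hm d hd V Γ Ω _ _ _ hΓ p hp hp1 M T hB
  set N : Ω → ℕ := fun ω => ((Prog.irrF m ×ˢ Prog.irrF (m + 1)).filter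
    (fun q => (M ω).Finds (q.1 * q.2) T)).card with hN
  -- averaging
  have hex : ∃ ω, (Prog.irrF m).card * (Prog.irrF (m + 1)).card ≤ (2 * m + 1) * N ω := by
    by_contra hcon
    push Not at hcon
    set C := (Prog.irrF m).card * (Prog.irrF (m + 1)).card with hC
    have h1 : (C : ℝ) * (1 / (2 * m + 1)) ≤ ∑ ω, p ω * N ω := by
      calc (C : ℝ) * (1 / (2 * m + 1))
          = ∑ q ∈ Prog.irrF m ×ˢ Prog.irrF (m + 1), (1 : ℝ) / (2 * m + 1) := by
            rw [Finset.sum_const, Finset.card_product, nsmul_eq_mul, hC]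
        _ ≤ ∑ q ∈ Prog.irrF m ×ˢ Prog.irrF (m + 1),
            ∑ ω, (if (M ω).Finds (q.1 * q.2) T then p ω else 0) := by
            apply Finset.sum_le_sum
            rintro ⟨g, h⟩ hq
            rw [Finset.mem_product, Prog.mem_irrF, Prog.mem_irrF] at hq
            have := hB g h hq.1.1 hq.2.1 hq.1.2 hq.2.2
            convert this using 2
        _ = ∑ ω, p ω * N ω := by
            rw [Finset.sum_comm]
            apply Finset.sum_congr rfl
            intro ω _
            rw [← Finset.sum_filter, Finset.sum_const, nsmul_eq_mul, hN, mul_comm]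
    have h2 : ∀ ω, (2 * m + 1 : ℝ) * N ω ≤ C - 1 := by
      intro ω
      have h3 : (2 * m + 1) * N ω + 1 ≤ C := hcon ω
      have h4 : ((2 * m + 1 : ℝ) * N ω + 1) ≤ C := by exact_mod_cast h3
      linarith
    have hpos : (0 : ℝ) < 2 * m + 1 := by positivity
    have h3 : (2 * m + 1 : ℝ) * ∑ ω, p ω * N ω ≤ C - 1 := by
      calc (2 * m + 1 : ℝ) * ∑ ω, p ω * N ω = ∑ ω, p ω * ((2 * m + 1 : ℝ) * N ω) := by
            rw [Finset.mul_sum]
            apply Finset.sum_congr rfl
            intro ω _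
            ring
        _ ≤ ∑ ω, p ω * ((C : ℝ) - 1) := by
            apply Finset.sum_le_sum
            intro ω _
            exact mul_le_mul_of_nonneg_left (h2 ω) (hp ω)
        _ = C - 1 := by rw [← Finset.sum_mul, hp1, one_mul]
    have h4 : (2 * m + 1 : ℝ) * ((C : ℝ) * (1 / (2 * m + 1))) = C := by
      field_simp
    have h5 : (C : ℝ) ≤ C - 1 := by
      calc (C : ℝ) = (2 * m + 1 : ℝ) * ((C : ℝ) * (1 / (2 * m + 1))) := h4.symm
        _ ≤ (2 * m + 1 : ℝ) * ∑ ω, p ω * N ω := mul_le_mul_of_nonneg_left h1 hpos.le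
        _ ≤ C - 1 := h3
    linarith
  obtain ⟨ω, hω⟩ := hex
  -- parameters
  set s := m / 96 with hs
  have hs30 : 30 ≤ s := by omega
  have hm1 : 96 * s ≤ m := by omega
  have hm2 : m + 1 ≤ 96 * (s + 1) := by omega
  have : Nonempty V := ⟨(M ω).start⟩
  have hW : 1 ≤ Fintype.card V := Fintype.card_pos
  have hS : (Prog.irrF m).card * (Prog.irrF (m + 1)).card ≤ (2 * m + 1) *
      ((Prog.irrF m ×ˢ Prog.irrF (m + 1)).filter (fun p =>
        (M ω).Succ T m p.1 p.2 ∨ (M ω).Succ T (m + 1) p.2 p.1)).card := by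
    refine hω.trans (Nat.mul_le_mul_left _ (Finset.card_le_card ?_))
    rintro ⟨g, h⟩ hp
    rw [Finset.mem_filter, Finset.mem_product] at hp ⊢
    exact ⟨hp.1, finds_succ (M ω) hp.1.1 hp.1.2 hp.2⟩
  rcases Nat.lt_or_ge T s with hTs | hTs
  · -- the time is too short
    exfalso
    have h1 := hPAIR (fun μ g h => (M ω).Succ T μ g h) m s s 1 hs30 hm1 hm2
      (fun h hh hb => by
        rw [one_mul]
        convert hSHO V Γ d (M ω) m (m + 1) (32 * s) (m - 32 * s) s s s T h hh hb (by omega)
          hTs.le le_rfl (by omega) using 3)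
      (fun h hh hb => by
        rw [one_mul]
        convert hSHO V Γ d (M ω) (m + 1) m (32 * s) (m + 1 - 32 * s) s s s T h hh hb (by omega)
          hTs.le le_rfl (by omega) using 3)
      (by convert hS using 3)
    have hsq := sq_lt_two_pow hs30
    have hn2 : (2 * m + 1) ^ 2 ≤ (200 * s) ^ 2 := Nat.pow_le_pow_left (by omega) 2
    nlinarith
  · have h1 := hARI d (2 * m + 1) s T (Fintype.card V) (Fintype.card Γ) hd hs30 (by omega)
      (by omega) hW hΓ hTs (fun w em lam s0 kap hw hem hl hk h1 h2 =>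
        hPAIR (fun μ g h => (M ω).Succ T μ g h) m s s0 (2 * (em + 1) * (s + 1)) hs30 hm1 hm2
          (fun h hh hb => by
            convert hUNI V Γ d (M ω) m (m + 1) (32 * s) (m - 32 * s) s s T w em lam s0 kap h hh hb
              (by omega) (by omega) (by omega) hem hw hl hk h1 (h2.trans (by omega)) using 3)
          (fun h hh hb => by
            convert hUNI V Γ d (M ω) (m + 1) m (32 * s) (m + 1 - 32 * s) s s T w em lam s0 kap h
              hh hb (by omega) (by omega) (by omega) hem hw hl hk h1 (h2.trans (by omega)) using 3)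
          (by convert hS using 3))
    push_cast at h1
    exact h1

end Pool.TSF
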