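import Pool.Agent.OH.Stmts

/-!
Groups of steps in one cube: weighted pigeonhole principle.
-/

set_option autoImplicit false

namespace Pool.TSF

namespace GRPAux

open Classical in
/-- The number of earlier visits. -/
noncomputable def AA {B : Type} (β : ℕ → B) (t : ℕ) : ℕ :=
  ((Finset.range t).filter (fun t' => β t' = β t)).card

open Classical in
/-- The number of earlier entries. -/
noncomputable def EE {B : Type} (β : ℕ → B) (t : ℕ) : ℕ :=
  ((Finset.range t).filter (fun t' => β (t' + 1) = β t ∧ β t' ≠ β t)).card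

/-- The number of the group. -/
noncomputable def qq {B : Type} (β : ℕ → B) (r em t : ℕ) : ℕ := AA β t / r + EE β t / em

/-- The key of the group. -/
noncomputable def key {B : Type} (β : ℕ → B) (r em t : ℕ) : B × ℕ := (β t, qq β r em t)

lemma AA_add {B : Type} (β : ℕ → B) (t u : ℕ) (h : t ≤ u) (hb : β t = β u) :
    AA β u = AA β t + cnt β (β t) t u := by
  classical
  unfold AA cnt
  rw [← hb]
  have hr : Finset.range u = Finset.range t ∪ Finset.Ico t u := by
    ext x
    simp only [Finset.mem_range, Finset.mem_union, Finset.mem_Ico]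
    omega
  rw [hr, Finset.filter_union, Finset.card_union_of_disjoint]
  apply Finset.disjoint_filter_filter
  rw [Finset.disjoint_left]
  intro x hx hx2
  simp only [Finset.mem_range, Finset.mem_Ico] at hx hx2
  omega

lemma EE_add {B : Type} (β : ℕ → B) (t n : ℕ) (hb : β t = β (t + n)) :
    EE β (t + n) = EE β t + ecnt β (β t) t n := by
  classical
  unfold EE ecnt
  rw [← hb]
  have hr : Finset.range (t + n) = Finset.range t ∪ Finset.Ico t (t + n) := by
    ext x
    simp only [Finset.mem_range, Finset.mem_union, Finset.mem_Ico]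
    omega
  rw [hr, Finset.filter_union, Finset.card_union_of_disjoint]
  apply Finset.disjoint_filter_filter
  rw [Finset.disjoint_left]
  intro x hx hx2
  simp only [Finset.mem_range, Finset.mem_Ico] at hx hx2
  omega

lemma AA_mono {B : Type} (β : ℕ → B) (t u : ℕ) (h : t ≤ u) (hb : β t = β u) :
    AA β t ≤ AA β u := by
  rw [AA_add β t u h hb]
  exact Nat.le_add_right _ _

lemma EE_mono {B : Type} (β : ℕ → B) (t u : ℕ) (h : t ≤ u) (hb : β t = β u) :
    EE β t ≤ EE β u := by
  obtain ⟨n, rfl⟩ := Nat.exists_eq_add_of_le h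
  rw [EE_add β t n hb]
  exact Nat.le_add_right _ _

lemma qq_mono {B : Type} (β : ℕ → B) (r em t u : ℕ) (h : t ≤ u) (hb : β t = β u) :
    qq β r em t ≤ qq β r em u :=
  Nat.add_le_add (Nat.div_le_div_right (AA_mono β t u h hb))
    (Nat.div_le_div_right (EE_mono β t u h hb))

/-- Equal quotients: the difference is less than the divisor. -/
lemma lt_of_div_eq {a b r : ℕ} (hr : 0 < r) (h : (a + b) / r = a / r) : b < r := by
  by_contra hb
  push Not at hb
  have h1 : (a + r) / r ≤ (a + b) / r := Nat.div_le_div_right (by omega)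
  rw [Nat.add_div_right _ hr] at h1
  omega

open Classical in
/-- The number of visited blocks. -/
lemma card_image_le_chg {B : Type} (β : ℕ → B) (T : ℕ) (hT : 1 ≤ T) :
    ((Finset.range T).image β).card ≤ chg β T + 1 := by
  obtain ⟨k, rfl⟩ : ∃ k, T = k + 1 := ⟨T - 1, by omega⟩
  clear hT
  induction k with
  | zero => simp [chg]
  | succ k ih =>
    unfold chg at ih ⊢
    simp only [Nat.add_sub_cancel] at ih ⊢
    have h1 : (Finset.range (k + 1 + 1)).image β =
        insert (β (k + 1)) ((Finset.range (k + 1)).image β) := by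
      rw [Finset.range_add_one (n := k + 1), Finset.image_insert]
    have h2 : (Finset.range (k + 1)).filter (fun t' => β t' ≠ β (t' + 1)) =
        if β k ≠ β (k + 1) then insert k ((Finset.range k).filter (fun t' => β t' ≠ β (t' + 1)))
        else (Finset.range k).filter (fun t' => β t' ≠ β (t' + 1)) := by
      rw [Finset.range_add_one (n := k), Finset.filter_insert]
    rw [h1, h2]
    by_cases h : β k = β (k + 1)
    · rw [Finset.insert_eq_of_mem, if_neg (by simpa using h)]
      · exact ih
      · exact Finset.mem_image.mpr ⟨k, Finset.mem_range.mpr (Nat.lt_succ_self k), h⟩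
    · rw [if_pos h]
      have h3 : (insert k ((Finset.range k).filter (fun t' => β t' ≠ β (t' + 1)))).card =
          ((Finset.range k).filter (fun t' => β t' ≠ β (t' + 1))).card + 1 :=
        Finset.card_insert_of_notMem (by simp)
      rw [h3]
      have h4 := Finset.card_insert_le (β (k + 1)) ((Finset.range (k + 1)).image β)
      omega

open Classical in
/-- The weighted pigeonhole principle. -/
lemma pigeon {K J : Type} [Fintype J] (S : Finset K) (hS : S.Nonempty) (f : J → K)
    (hf : ∀ j, f j ∈ S) (w : K → ℕ) (hw : ∑ κ ∈ S, w κ ≤ Fintype.card J) :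
    ∃ κ ∈ S, w κ ≤ (Finset.univ.filter (fun j : J => f j = κ)).card := by
  by_contra hcon
  push Not at hcon
  have h1 : (Finset.univ : Finset J).card =
      ∑ κ ∈ S, (Finset.univ.filter (fun j : J => f j = κ)).card :=
    Finset.card_eq_sum_card_fiberwise (fun j _ => hf j)
  have h2 : ∑ κ ∈ S, (Finset.univ.filter (fun j : J => f j = κ)).card < ∑ κ ∈ S, w κ :=
    Finset.sum_lt_sum_of_nonempty hS hcon
  rw [← h1, Finset.card_univ] at h2
  omega

/-- Division of a sum. -/
lemma sum_div_le {K : Type} (S : Finset K) (f : K → ℕ) (r : ℕ) (hr : 0 < r) :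
    ∑ x ∈ S, f x / r ≤ (∑ x ∈ S, f x) / r := by
  rw [Nat.le_div_iff_mul_le hr, Finset.sum_mul]
  exact Finset.sum_le_sum fun x _ => Nat.div_mul_le_self _ _

end GRPAux

open GRPAux in
theorem grp : Stmt_GRP := by
  classical
  intro B J _ β T r em lam s0 kap tm hT hr hem htm hJ
  have hr0 : 0 < r := hr
  have hem0 : 0 < em := by omega
  set ky : ℕ → B × ℕ := key β r em with hky
  set K : Finset (B × ℕ) := (Finset.range T).image ky with hK
  set I : Finset B := (Finset.range T).image β with hI
  set C : Finset ℕ := (Finset.range (T - 1)).filter (fun t' => β t' ≠ β (t' + 1)) with hC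
  have hchg : chg β T = C.card := rfl
  -- the entries of the groups
  set e : B × ℕ → ℕ := fun κ => (C.filter (fun t' => ky (t' + 1) = κ)).card with he
  have hesum : ∑ κ ∈ K, e κ = chg β T := by
    rw [hchg]
    symm
    apply Finset.card_eq_sum_card_fiberwise
    intro t' ht'
    have h1 : t' ∈ C := ht'
    rw [hC, Finset.mem_filter, Finset.mem_range] at h1
    exact Finset.mem_coe.mpr (Finset.mem_image.mpr
      ⟨t' + 1, Finset.mem_range.mpr (by omega), rfl⟩)
  -- the groups with number 0
  have hK0 : (K.filter (fun κ => κ.2 = 0)).card ≤ chg β T + 1 := by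
    refine le_trans ?_ (card_image_le_chg β T hT)
    apply Finset.card_le_card_of_injOn (fun κ => κ.1)
    · intro κ hκ
      rw [Finset.mem_coe, Finset.mem_filter] at hκ
      obtain ⟨t, ht, h1⟩ := Finset.mem_image.mp hκ.1
      rw [Finset.mem_coe]
      exact Finset.mem_image.mpr ⟨t, ht, by rw [← h1]; rfl⟩
    · intro κ hκ κ' hκ' h1
      rw [Finset.mem_coe, Finset.mem_filter] at hκ hκ'
      exact Prod.ext h1 (by rw [hκ.2, hκ'.2])
  -- the groups with positive number
  have hK1 : (K.filter (fun κ => ¬ κ.2 = 0)).card ≤ T / r + chg β T / em := by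
    set nb : B → ℕ := fun b => ((Finset.range T).filter (fun t => β t = b)).card with hnb
    set xb : B → ℕ := fun b => (C.filter (fun t' => β (t' + 1) = b)).card with hxb
    have hnbs : ∑ b ∈ I, nb b = T := by
      have := Finset.card_eq_sum_card_fiberwise (s := Finset.range T) (t := I) (f := β)
        (fun t ht => Finset.mem_coe.mpr (Finset.mem_image_of_mem β ht))
      rw [Finset.card_range] at this
      exact this.symm
    have hxbs : ∑ b ∈ I, xb b = chg β T := by
      rw [hchg]
      symm
      apply Finset.card_eq_sum_card_fiberwise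
      intro t' ht'
      have h1 : t' ∈ C := ht'
      rw [hC, Finset.mem_filter, Finset.mem_range] at h1
      exact Finset.mem_coe.mpr (Finset.mem_image.mpr
        ⟨t' + 1, Finset.mem_range.mpr (by omega), rfl⟩)
    have hsub : K.filter (fun κ => ¬ κ.2 = 0) ⊆
        I.biUnion (fun b => (Finset.Icc 1 (nb b / r + xb b / em)).image (fun q => (b, q))) := by
      intro κ hκ
      rw [Finset.mem_filter] at hκ
      obtain ⟨⟨t, ht, h1⟩, h2⟩ := And.imp_left Finset.mem_image.mp hκ
      rw [Finset.mem_range] at ht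
      rw [Finset.mem_biUnion]
      refine ⟨β t, Finset.mem_image.mpr ⟨t, Finset.mem_range.mpr ht, rfl⟩, ?_⟩
      rw [Finset.mem_image]
      refine ⟨κ.2, ?_, by rw [← h1]; rfl⟩
      rw [Finset.mem_Icc]
      refine ⟨by omega, ?_⟩
      rw [← h1]
      change AA β t / r + EE β t / em ≤ _
      apply Nat.add_le_add
      · apply Nat.div_le_div_right
        apply Finset.card_le_card
        intro t' ht'
        rw [Finset.mem_filter, Finset.mem_range] at ht' ⊢
        exact ⟨by omega, ht'.2⟩
      · apply Nat.div_le_div_right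
        apply Finset.card_le_card
        intro t' ht'
        rw [Finset.mem_filter, Finset.mem_range] at ht'
        rw [Finset.mem_filter, hC, Finset.mem_filter, Finset.mem_range]
        refine ⟨⟨by omega, ?_⟩, ht'.2.1⟩
        rw [ht'.2.1]
        exact ht'.2.2
    calc (K.filter (fun κ => ¬ κ.2 = 0)).card
        ≤ (I.biUnion (fun b => (Finset.Icc 1 (nb b / r + xb b / em)).image
            (fun q => (b, q)))).card := Finset.card_le_card hsub
      _ ≤ ∑ b ∈ I, ((Finset.Icc 1 (nb b / r + xb b / em)).image (fun q => (b, q))).card :=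
          Finset.card_biUnion_le
      _ ≤ ∑ b ∈ I, (nb b / r + xb b / em) := by
          apply Finset.sum_le_sum
          intro b _
          refine Finset.card_image_le.trans ?_
          rw [Nat.card_Icc, Nat.add_sub_cancel]
      _ = ∑ b ∈ I, nb b / r + ∑ b ∈ I, xb b / em := Finset.sum_add_distrib
      _ ≤ T / r + chg β T / em := by
          apply Nat.add_le_add
          · exact (sum_div_le I nb r hr0).trans (by rw [hnbs])
          · exact (sum_div_le I xb em hem0).trans (by rw [hxbs])
  -- the sum of the weights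
  have hKc : K.card = (K.filter (fun κ => κ.2 = 0)).card +
      (K.filter (fun κ => ¬ κ.2 = 0)).card :=
    (Finset.card_filter_add_card_filter_not (fun κ : B × ℕ => κ.2 = 0)).symm
  have hw : ∑ κ ∈ K, ((e κ + 1) * lam + s0 + (if κ.2 = 0 then 0 else kap)) ≤
      Fintype.card J := by
    refine le_trans ?_ hJ
    have h1 : ∑ κ ∈ K, ((e κ + 1) * lam + s0 + (if κ.2 = 0 then 0 else kap)) =
        (∑ κ ∈ K, e κ) * lam + K.card * (lam + s0) +
          (K.filter (fun κ => ¬ κ.2 = 0)).card * kap := by
      rw [Finset.sum_add_distrib, Finset.sum_mul]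
      have h2 : ∑ κ ∈ K, (if κ.2 = 0 then 0 else kap) =
          (K.filter (fun κ => ¬ κ.2 = 0)).card * kap := by
        have h3 : ∀ κ ∈ K, (if κ.2 = 0 then 0 else kap) = (if ¬ κ.2 = 0 then kap else 0) := by
          intro κ _
          by_cases h : κ.2 = 0 <;> simp [h]
        rw [Finset.sum_congr rfl h3, ← Finset.sum_filter, Finset.sum_const, smul_eq_mul]
      rw [h2]
      have h4 : ∑ κ ∈ K, ((e κ + 1) * lam + s0) = ∑ κ ∈ K, e κ * lam + K.card * (lam + s0) := by
        have h5 : ∀ κ ∈ K, (e κ + 1) * lam + s0 = e κ * lam + (lam + s0) := by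
          intro κ _
          ring
        rw [Finset.sum_congr rfl h5, Finset.sum_add_distrib, Finset.sum_const, smul_eq_mul]
      rw [h4]
    rw [h1, hesum]
    have h6 : K.card ≤ chg β T + 1 + T / r + chg β T / em := by omega
    have h7 : K.card * (lam + s0) ≤ (chg β T + 1 + T / r + chg β T / em) * (lam + s0) :=
      Nat.mul_le_mul_right _ h6
    have h8 : (K.filter (fun κ => ¬ κ.2 = 0)).card * kap ≤ (T / r + chg β T / em) * kap :=
      Nat.mul_le_mul_right _ hK1
    omega
  have hKne : K.Nonempty := ⟨ky 0, Finset.mem_image.mpr ⟨0, Finset.mem_range.mpr (by omega), rfl⟩⟩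
  obtain ⟨κ, hκ, hκw⟩ := pigeon K hKne (fun j => ky (tm j))
    (fun j => Finset.mem_image.mpr ⟨tm j, Finset.mem_range.mpr (htm j), rfl⟩)
    (fun κ => (e κ + 1) * lam + s0 + (if κ.2 = 0 then 0 else kap)) hw
  -- the chosen group
  set S : Finset ℕ := (Finset.range T).filter (fun t => ky t = κ) with hS
  have hSne : S.Nonempty := by
    obtain ⟨t, ht, h1⟩ := Finset.mem_image.mp hκ
    exact ⟨t, Finset.mem_filter.mpr ⟨ht, h1⟩⟩
  set t₀ := S.min' hSne with ht0
  set t₁ := S.max' hSne with ht1
  have hm0 : t₀ ∈ S := S.min'_mem hSne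
  have hm1 : t₁ ∈ S := S.max'_mem hSne
  have h01 : t₀ ≤ t₁ := S.min'_le _ hm1
  obtain ⟨n, hn⟩ := Nat.exists_eq_add_of_le h01
  rw [hS, Finset.mem_filter, Finset.mem_range] at hm0 hm1
  have hb0 : β t₀ = κ.1 := by
    rw [← hm0.2]
    rfl
  have hb1 : β t₁ = κ.1 := by
    rw [← hm1.2]
    rfl
  have hq0 : qq β r em t₀ = κ.2 := by
    rw [← hm0.2]
    rfl
  have hq1 : qq β r em t₁ = κ.2 := by
    rw [← hm1.2]
    rfl
  have hbb : β t₀ = β (t₀ + n) := by rw [← hn, hb0, hb1]
  -- both quotients are constant
  have hAA := AA_add β t₀ (t₀ + n) (Nat.le_add_right _ _) hbb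
  have hEE := EE_add β t₀ n hbb
  have hA1 : AA β t₀ / r ≤ AA β (t₀ + n) / r :=
    Nat.div_le_div_right (AA_mono β _ _ (Nat.le_add_right _ _) hbb)
  have hE1 : EE β t₀ / em ≤ EE β (t₀ + n) / em :=
    Nat.div_le_div_right (EE_mono β _ _ (Nat.le_add_right _ _) hbb)
  have hqeq : AA β t₀ / r + EE β t₀ / em = AA β (t₀ + n) / r + EE β (t₀ + n) / em := by
    rw [hn] at hq1
    unfold qq at hq0 hq1
    omega
  have hcn : cnt β (β t₀) t₀ (t₀ + n) < r := by
    apply lt_of_div_eq hr0 (a := AA β t₀)
    rw [← hAA]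
    omega
  have hen : ecnt β (β t₀) t₀ n < em := by
    apply lt_of_div_eq hem0 (a := EE β t₀)
    rw [← hEE]
    omega
  have hcn1 : cnt β κ.1 t₀ (t₀ + n + 1) ≤ cnt β (β t₀) t₀ (t₀ + n) + 1 := by
    unfold cnt
    rw [hb0]
    have h1 : Finset.Ico t₀ (t₀ + n + 1) = insert (t₀ + n) (Finset.Ico t₀ (t₀ + n)) := by
      ext x
      simp only [Finset.mem_Ico, Finset.mem_insert]
      omega
    rw [h1, Finset.filter_insert]
    split_ifs
    · exact Finset.card_insert_le _ _
    · exact Nat.le_succ _
  refine ⟨κ.1, t₀, n, decide (κ.2 = 0), hb0, by omega, by omega, ?_, ?_, ?_⟩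
  · rw [← hb0]
    omega
  · intro hf t ht hbt
    have hf' : κ.2 = 0 := of_decide_eq_true hf
    have h1 : qq β r em t ≤ qq β r em t₀ := qq_mono β r em t t₀ ht.le (by rw [hbt, hb0])
    have h2 : qq β r em t = κ.2 := by omega
    have h3 : t ∈ S := by
      rw [hS, Finset.mem_filter, Finset.mem_range]
      refine ⟨by omega, ?_⟩
      exact Prod.ext hbt h2
    have h4 : t₀ ≤ t := S.min'_le _ h3
    omega
  · refine le_trans ?_ (hκw.trans ?_)
    swap
    · apply Finset.card_le_card
      intro j hj
      simp only [Finset.mem_filter, Finset.mem_univ, true_and] at hj ⊢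
      have h1 : tm j ∈ S := by
        rw [hS, Finset.mem_filter, Finset.mem_range]
        exact ⟨htm j, hj⟩
      refine ⟨S.min'_le _ h1, ?_, ?_⟩
      · rw [← hn]
        exact S.le_max' _ h1
      · rw [← hj]
        rfl
    have hee : ecnt β κ.1 t₀ n ≤ e κ := by
      rw [he]
      apply Finset.card_le_card
      intro t' ht'
      rw [Finset.mem_filter, Finset.mem_Ico] at ht'
      obtain ⟨⟨h1, h2⟩, h3, h4⟩ := ht'
      rw [Finset.mem_filter, hC, Finset.mem_filter, Finset.mem_range]
      refine ⟨⟨by omega, by rw [h3]; exact h4⟩, ?_⟩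
      refine Prod.ext h3 ?_
      change qq β r em (t' + 1) = κ.2
      have h5 : qq β r em t₀ ≤ qq β r em (t' + 1) :=
        qq_mono β r em t₀ (t' + 1) (by omega) (by rw [h3, hb0])
      have h6 : qq β r em (t' + 1) ≤ qq β r em t₁ :=
        qq_mono β r em (t' + 1) t₁ (by omega) (by rw [h3, hb1])
      omega
    have h7 : (if decide (κ.2 = 0) = true then 0 else kap) = (if κ.2 = 0 then 0 else kap) := by
      by_cases h : κ.2 = 0 <;> simp [h]
    have h8 : (ecnt β κ.1 t₀ n + 1) * lam ≤ (e κ + 1) * lam :=
      Nat.mul_le_mul_right _ (Nat.add_le_add_right hee 1)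
    have h9 : (if decide (κ.2 = 0) = true then 0 else kap) ≤ (if κ.2 = 0 then 0 else kap) :=
      h7.le
    calc (ecnt β κ.1 t₀ n + 1) * lam + s0 + (if decide (κ.2 = 0) = true then 0 else kap)
        ≤ (e κ + 1) * lam + s0 + (if κ.2 = 0 then 0 else kap) := by
          exact Nat.add_le_add (Nat.add_le_add h8 le_rfl) h9
      _ = _ := rfl

end Pool.TSF
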