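import Pool.Agent.OH.Stmts

/-!
From a bound for the good cofactors to a bound for random products of two irreducible polynomials,
for an arbitrary success predicate.
-/

set_option autoImplicit false

namespace Pool.TSF

open Polynomial

namespace PAIRAux

open Classical in
/-- The number of pairs `(g, h)` with success for the first factor. -/
theorem card_pairs (S : (ZMod 2)[X] → (ZMod 2)[X] → Prop) (μ μ' a b r k k' G β : ℕ)
    (hS : ∀ h : (ZMod 2)[X], h.natDegree ≤ μ' → ¬ Bad μ (μ + μ') a b r k h →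
      2 ^ k' * (Finset.univ.filter (fun c : Fin μ → ZMod 2 => S (pol μ c) h)).card ≤ G)
    (hβ : Set.ncard {h : (ZMod 2)[X] | h.natDegree ≤ μ' ∧ Bad μ (μ + μ') a b r k h} ≤ β) :
    2 ^ k' * ((Prog.irrF μ ×ˢ Prog.irrF μ').filter (fun p => S p.1 p.2)).card ≤
      2 ^ k' * β * (Prog.irrF μ).card + G * (Prog.irrF μ').card := by
  have hsum : ((Prog.irrF μ ×ˢ Prog.irrF μ').filter (fun p => S p.1 p.2)).card =
      ∑ h ∈ Prog.irrF μ', ((Prog.irrF μ).filter (fun g => S g h)).card := by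
    rw [Finset.card_filter, Finset.sum_product_right]
    apply Finset.sum_congr rfl
    intro h _
    rw [Finset.card_filter]
  set bad := (Prog.irrF μ').filter (fun h => Bad μ (μ + μ') a b r k h) with hbad
  have hbadc : bad.card ≤ β := by
    refine le_trans ?_ hβ
    rw [← Set.ncard_coe_finset]
    apply Set.ncard_le_ncard
    · intro h hh
      rw [Finset.mem_coe, hbad, Finset.mem_filter, Prog.mem_irrF] at hh
      exact ⟨hh.1.2.le, hh.2⟩
    · exact (finite_natDegree_le μ').subset (fun h hh => hh.1)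
  have hgood : ∀ h ∈ Prog.irrF μ', ¬ Bad μ (μ + μ') a b r k h →
      2 ^ k' * ((Prog.irrF μ).filter (fun g => S g h)).card ≤ G := by
    intro h hh hg
    rw [Prog.mem_irrF] at hh
    have h1 := hS h hh.2.le hg
    refine le_trans (Nat.mul_le_mul_left _ ?_) h1
    apply Finset.card_le_card_of_injOn (fun g (j : Fin μ) => g.coeff j)
    · intro g hg
      rw [Finset.mem_coe, Finset.mem_filter, Prog.mem_irrF] at hg
      rw [Finset.mem_coe, Finset.mem_filter]
      refine ⟨Finset.mem_univ _, ?_⟩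
      rw [Prog.pol_eq μ g (monic_of_ne_zero hg.1.1.ne_zero) hg.1.2]
      exact hg.2
    · intro g hg g' hg' hgg
      rw [Finset.mem_coe, Finset.mem_filter, Prog.mem_irrF] at hg hg'
      rw [← Prog.pol_eq μ g (monic_of_ne_zero hg.1.1.ne_zero) hg.1.2,
        ← Prog.pol_eq μ g' (monic_of_ne_zero hg'.1.1.ne_zero) hg'.1.2]
      exact congrArg (pol μ) hgg
  rw [hsum, Finset.mul_sum, ← Finset.sum_filter_add_sum_filter_not (Prog.irrF μ')
    (fun h => Bad μ (μ + μ') a b r k h)]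
  apply Nat.add_le_add
  · calc ∑ h ∈ bad, 2 ^ k' * ((Prog.irrF μ).filter (fun g => S g h)).card
        ≤ ∑ h ∈ bad, 2 ^ k' * (Prog.irrF μ).card := by
          apply Finset.sum_le_sum
          intro h _
          exact Nat.mul_le_mul_left _ (Finset.card_le_card (Finset.filter_subset _ _))
      _ = bad.card * (2 ^ k' * (Prog.irrF μ).card) := by rw [Finset.sum_const, smul_eq_mul]
      _ ≤ β * (2 ^ k' * (Prog.irrF μ).card) := Nat.mul_le_mul_right _ hbadc
      _ = 2 ^ k' * β * (Prog.irrF μ).card := by ring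
  · calc ∑ h ∈ (Prog.irrF μ').filter (fun h => ¬ Bad μ (μ + μ') a b r k h),
          2 ^ k' * ((Prog.irrF μ).filter (fun g => S g h)).card
        ≤ ∑ h ∈ (Prog.irrF μ').filter (fun h => ¬ Bad μ (μ + μ') a b r k h), G := by
          apply Finset.sum_le_sum
          intro h hh
          rw [Finset.mem_filter] at hh
          exact hgood h hh.1 hh.2
      _ = ((Prog.irrF μ').filter (fun h => ¬ Bad μ (μ + μ') a b r k h)).card * G := by
          rw [Finset.sum_const, smul_eq_mul]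
      _ ≤ (Prog.irrF μ').card * G := Nat.mul_le_mul_right _ (Finset.card_le_card
          (Finset.filter_subset _ _))
      _ = G * (Prog.irrF μ').card := by ring

end PAIRAux

/-- **Pairs.** From a bound for the good `h` to a bound for random products of irreducibles. -/
theorem pair : Stmt_PAIR := by
  classical
  intro S m s k' G hs hm1 hm2 hS1 hS2 hN
  set n := 2 * m + 1 with hn
  set I := (Prog.irrF m).card with hI
  set I' := (Prog.irrF (m + 1)).card with hI'
  set N1 := ((Prog.irrF m ×ˢ Prog.irrF (m + 1)).filter (fun p => S m p.1 p.2)).card with hN1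
  set N2 := ((Prog.irrF (m + 1) ×ˢ Prog.irrF m).filter (fun p => S (m + 1) p.1 p.2)).card with hN2
  set β1 := 2 ^ (6 * s + (5 * s + 6)) * 2 ^ (6 * s + (s + 3)) * 2 ^ (m + 1 - 32 * s) with hβ1
  set β2 := 2 ^ (6 * s + (5 * s + 6)) * 2 ^ (6 * s + (s + 3)) * 2 ^ (m - 32 * s) with hβ2
  have hc1 : 2 ^ k' * N1 ≤ 2 ^ k' * β1 * I + G * 2 ^ m * I' := by
    apply PAIRAux.card_pairs (S m) m (m + 1) (32 * s) (m - 32 * s) s s k' (G * 2 ^ m) β1
    · intro h hdeg hbad
      have := hS1 h hdeg hbad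
      convert this using 3
    · exact bad_count m (m + 1) (32 * s) (m - 32 * s) s s (32 * s) (5 * s + 6) (s + 3)
        (by omega) (by omega) (by omega) (by omega) (by omega)
  have hc2 : 2 ^ k' * N2 ≤ 2 ^ k' * β2 * I' + G * 2 ^ (m + 1) * I := by
    apply PAIRAux.card_pairs (S (m + 1)) (m + 1) m (32 * s) (m + 1 - 32 * s) s s k'
      (G * 2 ^ (m + 1)) β2
    · intro h hdeg hbad
      have := hS2 h hdeg hbad
      convert this using 3
    · exact bad_count (m + 1) m (32 * s) (m + 1 - 32 * s) s s (32 * s) (5 * s + 6) (s + 3)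
        (by omega) (by omega) (by omega) (by omega) (by omega)
  -- the number of pairs
  have hNN : ((Prog.irrF m ×ˢ Prog.irrF (m + 1)).filter
      (fun p => S m p.1 p.2 ∨ S (m + 1) p.2 p.1)).card ≤ N1 + N2 := by
    have h1 : (Prog.irrF m ×ˢ Prog.irrF (m + 1)).filter
          (fun p => S m p.1 p.2 ∨ S (m + 1) p.2 p.1) ⊆
        (Prog.irrF m ×ˢ Prog.irrF (m + 1)).filter (fun p => S m p.1 p.2) ∪
        ((Prog.irrF (m + 1) ×ˢ Prog.irrF m).filter (fun p => S (m + 1) p.1 p.2)).image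
          Prod.swap := by
      rintro ⟨g, h⟩ hp
      rw [Finset.mem_filter, Finset.mem_product] at hp
      rw [Finset.mem_union]
      rcases hp.2 with h2 | h2
      · left
        rw [Finset.mem_filter, Finset.mem_product]
        exact ⟨hp.1, h2⟩
      · right
        rw [Finset.mem_image]
        refine ⟨(h, g), ?_, rfl⟩
        rw [Finset.mem_filter, Finset.mem_product]
        exact ⟨⟨hp.1.2, hp.1.1⟩, h2⟩
    refine (Finset.card_le_card h1).trans ((Finset.card_union_le _ _).trans ?_)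
    exact Nat.add_le_add_left Finset.card_image_le _
  have hIm : 2 ^ m ≤ 2 * m * I := by
    rw [hI, Prog.card_irrF]
    exact irr_lower (by omega)
  have hIm' : 2 ^ (m + 1) ≤ 2 * (m + 1) * I' := by
    rw [hI', Prog.card_irrF]
    exact irr_lower (by omega)
  have hIpos : 0 < I := by
    rcases Nat.eq_zero_or_pos I with h | h
    · rw [h, mul_zero] at hIm
      exact absurd hIm (Nat.not_le.mpr (by positivity))
    · exact h
  have hIpos' : 0 < I' := by
    rcases Nat.eq_zero_or_pos I' with h | h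
    · rw [h, mul_zero] at hIm'
      exact absurd hIm' (Nat.not_le.mpr (by positivity))
    · exact h
  have hb1 : 2 ^ (14 * s) * β1 = 2 ^ 9 * 2 ^ (m + 1) := by
    rw [hβ1, ← pow_add, ← pow_add, ← pow_add, ← pow_add]
    congr 1
    omega
  have hb2 : 2 ^ (14 * s) * β2 = 2 ^ 9 * 2 ^ m := by
    rw [hβ2, ← pow_add, ← pow_add, ← pow_add, ← pow_add]
    congr 1
    omega
  have hN' : I * I' ≤ n * (N1 + N2) := by
    refine le_trans ?_ (Nat.mul_le_mul_left _ hNN)
    convert hN using 4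
  -- the main estimate
  have hmain : 2 ^ (14 * s) * 2 ^ k' * (I * I') ≤
      2 * n ^ 2 * (2 ^ 9 * 2 ^ k' + 2 ^ (14 * s) * G) * (I * I') := by
    calc 2 ^ (14 * s) * 2 ^ k' * (I * I')
        ≤ 2 ^ (14 * s) * 2 ^ k' * (n * (N1 + N2)) := Nat.mul_le_mul_left _ hN'
      _ = n * (2 ^ (14 * s) * (2 ^ k' * N1 + 2 ^ k' * N2)) := by ring
      _ ≤ n * (2 ^ (14 * s) * ((2 ^ k' * β1 * I + G * 2 ^ m * I') +
            (2 ^ k' * β2 * I' + G * 2 ^ (m + 1) * I))) := by gcongr
      _ = n * (2 ^ k' * (2 ^ (14 * s) * β1) * I + 2 ^ (14 * s) * G * 2 ^ m * I' +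
            2 ^ k' * (2 ^ (14 * s) * β2) * I' + 2 ^ (14 * s) * G * 2 ^ (m + 1) * I) := by ring
      _ = n * (2 ^ k' * (2 ^ 9 * 2 ^ (m + 1)) * I + 2 ^ (14 * s) * G * 2 ^ m * I' +
            2 ^ k' * (2 ^ 9 * 2 ^ m) * I' + 2 ^ (14 * s) * G * 2 ^ (m + 1) * I) := by
          rw [hb1, hb2]
      _ ≤ n * (2 ^ k' * (2 ^ 9 * (2 * (m + 1) * I')) * I +
            2 ^ (14 * s) * G * (2 * m * I) * I' +
            2 ^ k' * (2 ^ 9 * (2 * m * I)) * I' +
            2 ^ (14 * s) * G * (2 * (m + 1) * I') * I) := by gcongr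
      _ = 2 * n ^ 2 * (2 ^ 9 * 2 ^ k' + 2 ^ (14 * s) * G) * (I * I') := by
          rw [hn]
          ring
  have hmain2 : 2 ^ (14 * s) * 2 ^ k' ≤
      2 * n ^ 2 * (2 ^ 9 * 2 ^ k' + 2 ^ (14 * s) * G) :=
    Nat.le_of_mul_le_mul_right hmain (Nat.mul_pos hIpos hIpos')
  -- the bad part is small
  have hsq := sq_lt_two_pow hs
  have hn200 : n ≤ 200 * s := by omega
  have hsmall : 2 * (2 * n ^ 2 * 2 ^ 9) ≤ 2 ^ (14 * s) := by
    have h1 : n ^ 2 ≤ (200 * s) ^ 2 := Nat.pow_le_pow_left hn200 2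
    have h2 : 2 ^ (9 + s) ≤ 2 ^ (14 * s) := Nat.pow_le_pow_right (by norm_num) (by omega)
    have h3 : (2 : ℕ) ^ (9 + s) = 512 * 2 ^ s := by rw [pow_add]; norm_num
    nlinarith
  have h1 : 2 * (2 ^ (14 * s) * 2 ^ k') ≤ 2 ^ (14 * s) * 2 ^ k' +
      2 ^ (14 * s) * (4 * n ^ 2 * G) := by
    calc 2 * (2 ^ (14 * s) * 2 ^ k') ≤ 2 * (2 * n ^ 2 * (2 ^ 9 * 2 ^ k' + 2 ^ (14 * s) * G)) :=
          Nat.mul_le_mul_left _ hmain2
      _ = 2 * (2 * n ^ 2 * 2 ^ 9) * 2 ^ k' + 2 ^ (14 * s) * (4 * n ^ 2 * G) := by ring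
      _ ≤ 2 ^ (14 * s) * 2 ^ k' + 2 ^ (14 * s) * (4 * n ^ 2 * G) := by gcongr
  have h2 : 2 ^ (14 * s) * 2 ^ k' ≤ 2 ^ (14 * s) * (4 * n ^ 2 * G) := by omega
  exact Nat.le_of_mul_le_mul_left h2 (by positivity)

end Pool.TSF
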