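import Pool.Agent.OH.Stmts

/-!
Module RHO: for some shift the path changes the cube in at most `T / w` steps.
-/

set_option autoImplicit false

namespace Pool.TSF

namespace RHOAux

theorem dvd_of_ediv_ne {w : ℕ} (hw : 0 < w) {c : ℤ} (h : c / (w : ℤ) ≠ (c + 1) / (w : ℤ)) :
    (w : ℤ) ∣ c + 1 := by
  have hw' : (0 : ℤ) < w := by exact_mod_cast hw
  by_contra hd
  apply h
  have h1 := Int.emod_add_mul_ediv c (w : ℤ)
  have h2 := Int.emod_nonneg c hw'.ne'
  have h3 := Int.emod_lt_of_pos c hw'
  have h4 : c % (w : ℤ) + 1 ≠ w := by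
    intro h5
    apply hd
    refine ⟨c / (w : ℤ) + 1, ?_⟩
    have h6 : c = (w : ℤ) - 1 + (w : ℤ) * (c / (w : ℤ)) := by
      linarith
    have h7 : (w : ℤ) * (c / (w : ℤ) + 1) = (w : ℤ) * (c / (w : ℤ)) + w := by ring
    rw [h7]
    linarith
  have h5 : c % (w : ℤ) + 1 < w := lt_of_le_of_ne (by omega) h4
  have h6 : c + 1 = (c % (w : ℤ) + 1) + (w : ℤ) * (c / (w : ℤ)) := by linarith
  rw [h6, Int.add_mul_ediv_left _ _ hw'.ne', Int.ediv_eq_zero_of_lt (by omega) h5]
  have h7 : ((c % (w : ℤ) + 1) + (w : ℤ) * (c / (w : ℤ)) - 1) = c := by linarith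
  simp

theorem eq_of_dvd {w : ℕ} {c : ℤ} {a b : ℕ} (ha : a < w) (hb : b < w)
    (h1 : (w : ℤ) ∣ c + a) (h2 : (w : ℤ) ∣ c + b) : a = b := by
  have h3 : (w : ℤ) ∣ (a : ℤ) - b := by
    have := dvd_sub h1 h2
    simpa using this
  have h4 : (a : ℤ) - b = 0 := by
    apply Int.eq_zero_of_abs_lt_dvd h3
    rw [abs_lt]
    constructor <;> omega
  omega

open Classical in
/-- For every step at most one shift changes the cube. -/
theorem card_le {d : ℕ} {w : ℕ} (hw : 0 < w) (x : Fin d → ℤ) (m : Option (Fin d × Bool)) :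
    ((Finset.range w).filter
      (fun ρ : ℕ => blk w (ρ : ℤ) x ≠ blk w (ρ : ℤ) (shift x m))).card ≤ 1 := by
  rw [Finset.card_le_one]
  intro a ha b hb
  rw [Finset.mem_filter, Finset.mem_range] at ha hb
  obtain ⟨ha1, ha2⟩ := ha
  obtain ⟨hb1, hb2⟩ := hb
  match m with
  | none => exact absurd rfl ha2
  | some (i, true) =>
    have key : ∀ c : ℕ, blk w (c : ℤ) x ≠ blk w (c : ℤ) (shift x (some (i, true))) →
        (w : ℤ) ∣ (x i + 1) + c := by
      intro c hc
      have h1 : (x i + c) / (w : ℤ) ≠ (x i + c + 1) / (w : ℤ) := by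
        intro h2
        apply hc
        funext k
        simp only [blk, shift]
        by_cases hk : k = i
        · subst hk
          rw [Function.update_self, h2]
          congr 1
          ring
        · rw [Function.update_of_ne hk]
      have h2 := dvd_of_ediv_ne hw h1
      have h3 : x i + c + 1 = (x i + 1) + c := by ring
      rwa [h3] at h2
    exact eq_of_dvd ha1 hb1 (key a ha2) (key b hb2)
  | some (i, false) =>
    have key : ∀ c : ℕ, blk w (c : ℤ) x ≠ blk w (c : ℤ) (shift x (some (i, false))) →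
        (w : ℤ) ∣ x i + c := by
      intro c hc
      have h1 : (x i + c - 1) / (w : ℤ) ≠ (x i + c - 1 + 1) / (w : ℤ) := by
        intro h2
        apply hc
        funext k
        simp only [blk, shift]
        by_cases hk : k = i
        · subst hk
          rw [Function.update_self]
          have h3 : x k + (c : ℤ) = x k + c - 1 + 1 := by ring
          have h4 : x k - 1 + (c : ℤ) = x k + c - 1 := by ring
          rw [h3, ← h2, h4]
        · rw [Function.update_of_ne hk]
      have h2 := dvd_of_ediv_ne hw h1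
      have h3 : x i + c - 1 + 1 = x i + c := by ring
      rwa [h3] at h2
    exact eq_of_dvd ha1 hb1 (key a ha2) (key b hb2)

end RHOAux

open RHOAux in
theorem rho : Stmt_RHO := by
  classical
  intro d w T p mv hw hp
  by_contra hcon
  push Not at hcon
  have hsum : ∑ ρ ∈ Finset.range w, chg (fun t => blk w (ρ : ℤ) (p t)) T ≤ T - 1 := by
    have h1 : ∑ ρ ∈ Finset.range w, chg (fun t => blk w (ρ : ℤ) (p t)) T
        = ∑ t ∈ Finset.range (T - 1), ((Finset.range w).filter
          (fun ρ : ℕ => blk w (ρ : ℤ) (p t) ≠ blk w (ρ : ℤ) (p (t + 1)))).card := by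
      simp only [chg, Finset.card_filter]
      exact Finset.sum_comm
    rw [h1]
    calc _ ≤ ∑ t ∈ Finset.range (T - 1), 1 := by
          apply Finset.sum_le_sum
          intro t _
          rw [hp t]
          exact card_le hw (p t) (mv t)
      _ = T - 1 := by simp
  have h2 : ∑ ρ ∈ Finset.range w, (T + 1) ≤
      ∑ ρ ∈ Finset.range w, w * chg (fun t => blk w (ρ : ℤ) (p t)) T := by
    apply Finset.sum_le_sum
    intro ρ hρ
    have := hcon ρ (Finset.mem_range.1 hρ)
    omega
  rw [← Finset.mul_sum, Finset.sum_const, Finset.card_range, smul_eq_mul] at h2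
  have h3 := Nat.le_of_mul_le_mul_left h2 hw
  omega

end Pool.TSF
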