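import Pool.Agent.OH.Stmts

/-!
Short times: one block.
-/

set_option autoImplicit false

namespace Pool.TSF

open Polynomial

namespace SHOAux

variable {V Γ : Type} {d : ℕ}

/-- The machine as a program whose states are the configurations. -/
def prog (M : Mach V Γ d) : Prog (Conf V Γ d) where
  start := ⟨M.start, 0, fun _ => M.blank⟩
  pos := fun _ C => M.pos C.st (C.tape C.pt)
  next := fun _ C x => M.stepx C x
  out := fun _ C x => M.out C.st (C.tape C.pt) x

lemma prog_state (M : Mach V Γ d) (f : (ZMod 2)[X]) (t : ℕ) : (prog M).state f t = M.conf f t := by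
  induction t with
  | zero => rfl
  | succ t ih =>
    show (prog M).next t ((prog M).state f t) _ = _
    rw [ih]
    rfl

lemma prog_claims (M : Mach V Γ d) (f : (ZMod 2)[X]) (T : ℕ) :
    (prog M).claims f T = M.claims f T := by
  ext x
  constructor
  · rintro ⟨t, ht, h⟩
    rw [prog_state] at h
    exact ⟨t, ht, h⟩
  · rintro ⟨t, ht, h⟩
    refine ⟨t, ht, ?_⟩
    rw [prog_state]
    exact h

lemma prog_succ (M : Mach V Γ d) (T μ : ℕ) (g h : (ZMod 2)[X]) :
    (prog M).Succ T μ g h ↔ M.Succ T μ g h := by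
  unfold Prog.Succ Mach.Succ
  rw [prog_claims]

end SHOAux

open SHOAux in
theorem sho : Stmt_SHO := by
  intro V Γ d M μ μ' a b r k k' T h hdeg hgood hb hT hk hk'
  classical
  rcases Nat.eq_zero_or_pos k' with rfl | hpos
  · rw [pow_zero, one_mul]
    refine (Finset.card_le_univ _).trans (le_of_eq ?_)
    rw [Fintype.card_fun, ZMod.card, Fintype.card_fin]
  rcases Nat.eq_zero_or_pos r with rfl | hr
  · have hT0 : T = 0 := by omega
    have hempty : Finset.univ.filter (fun c : Fin μ → ZMod 2 => M.Succ T μ (pol μ c) h) = ∅ := by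
      rw [Finset.filter_eq_empty_iff]
      intro c _ hs
      have h1 := (hs 0 (by omega) ((pol μ c).coeff 0)).mpr rfl
      obtain ⟨t, ht, -⟩ := h1
      omega
    rw [hempty, Finset.card_empty, mul_zero]
    exact Nat.zero_le _
  have hcb := (prog M).card_block μ μ' a b r k k' h hdeg hgood T 0 (prog M).start hk
  refine le_trans (Nat.mul_le_mul_left _ (Finset.card_le_card ?_)) hcb
  intro c hc
  rw [Finset.mem_filter] at hc ⊢
  refine ⟨Finset.mem_univ _, ?_⟩
  obtain ⟨i, hi, hblock⟩ := (prog M).exists_block μ a b r k' 1 T hr le_rfl (by omega) (by omega) hb h c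
    ((prog_succ M T μ _ h).mpr hc.2)
  have hi0 : i = 0 := by omega
  subst hi0
  rw [zero_mul] at hblock
  exact hblock

end Pool.TSF
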