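import Pool.Agent.OH.Stmts

/-!
The simulation of the steps in one cube (module SIM). Proof: `Pool/Agent/OH/PAPER.md`.
-/

set_option autoImplicit false

namespace Pool.TSF

open Polynomial

namespace SIMAux

lemma cnt_zero {B : Type} (β : ℕ → B) (b : B) (t : ℕ) : cnt β b t t = 0 := by
  unfold cnt
  simp

lemma cnt_succ_pos {B : Type} (β : ℕ → B) (b : B) (t k : ℕ) (h : β (t + k) = b) :
    cnt β b t (t + k + 1) = cnt β b t (t + k) + 1 := by
  classical
  unfold cnt
  have h1 : Finset.Ico t (t + k + 1) = insert (t + k) (Finset.Ico t (t + k)) := by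
    ext x
    simp only [Finset.mem_Ico, Finset.mem_insert]
    omega
  rw [h1, Finset.filter_insert, if_pos h, Finset.card_insert_of_notMem]
  simp

lemma cnt_succ_neg {B : Type} (β : ℕ → B) (b : B) (t k : ℕ) (h : β (t + k) ≠ b) :
    cnt β b t (t + k + 1) = cnt β b t (t + k) := by
  classical
  unfold cnt
  have h1 : Finset.Ico t (t + k + 1) = insert (t + k) (Finset.Ico t (t + k)) := by
    ext x
    simp only [Finset.mem_Ico, Finset.mem_insert]
    omega
  rw [h1, Finset.filter_insert, if_neg h]

lemma cnt_mono {B : Type} (β : ℕ → B) (b : B) (t u u' : ℕ) (h : u ≤ u') :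
    cnt β b t u ≤ cnt β b t u' := by
  classical
  unfold cnt
  apply Finset.card_le_card
  apply Finset.filter_subset_filter
  exact Finset.Ico_subset_Ico le_rfl h

lemma cnt_exists {B : Type} (β : ℕ → B) (b : B) (t i : ℕ) : ∀ m : ℕ, i < cnt β b t (t + m) →
    ∃ k < m, β (t + k) = b ∧ cnt β b t (t + k) = i := by
  intro m
  induction m with
  | zero =>
    intro h
    rw [add_zero, cnt_zero] at h
    omega
  | succ m ih =>
    intro h
    by_cases hb : β (t + m) = b
    · rw [← add_assoc, cnt_succ_pos β b t m hb] at h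
      rcases Nat.lt_succ_iff_lt_or_eq.mp h with h1 | h1
      · obtain ⟨k, hk, h2⟩ := ih h1
        exact ⟨k, by omega, h2⟩
      · exact ⟨m, by omega, hb, h1.symm⟩
    · rw [← add_assoc, cnt_succ_neg β b t m hb] at h
      obtain ⟨k, hk, h2⟩ := ih h
      exact ⟨k, by omega, h2⟩

end SIMAux

open SIMAux in
/-- **Simulation.** -/
theorem simul (hBOX : Stmt_BOX) : Stmt_SIM := by
  intro V Γ d M f w ρ b t₀ n r τ hw hb0 hτ hr D j y
  classical
  set c₀ : Conf V Γ d × List (V × (Fin d → ℤ)) :=
    (⟨(M.conf f t₀).st, loc w ρ b (M.conf f t₀).pt, τ⟩, M.ents f w ρ b t₀ n) with hc₀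
  set P := M.sim w c₀ with hP
  set β := M.bk f w ρ with hβ
  -- elementary facts on cubes
  have inbox : ∀ t, β t = b ↔ InBox w (loc w ρ b (M.conf f t).pt) := by
    intro t
    exact ((hBOX d w ρ b (M.conf f t).pt hw).1).symm
  have gl : ∀ x, glob w ρ b (loc w ρ b x) = x := fun x => (hBOX d w ρ b x hw).2.1
  have lg : ∀ x, loc w ρ b (glob w ρ b x) = x := fun x => (hBOX d w ρ b x hw).2.2.1
  have ls : ∀ x mv, loc w ρ b (shift x mv) = shift (loc w ρ b x) mv :=
    fun x mv => (hBOX d w ρ b x hw).2.2.2 mv
  -- the invariant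
  have inv : ∀ k, k ≤ n →
      (∀ x, InBox w x → (P.bst f 0 c₀ (cnt β b t₀ (t₀ + k))).1.tape x =
        (M.conf f (t₀ + k)).tape (glob w ρ b x)) ∧
      (β (t₀ + k) = b →
        (P.bst f 0 c₀ (cnt β b t₀ (t₀ + k))).1.st = (M.conf f (t₀ + k)).st ∧
        (P.bst f 0 c₀ (cnt β b t₀ (t₀ + k))).1.pt = loc w ρ b (M.conf f (t₀ + k)).pt ∧
        (P.bst f 0 c₀ (cnt β b t₀ (t₀ + k))).2 = M.ents f w ρ b (t₀ + k) (n - k)) ∧
      (β (t₀ + k) ≠ b → ∀ e l, M.ents f w ρ b (t₀ + k) (n - k) = e :: l →
        (P.bst f 0 c₀ (cnt β b t₀ (t₀ + k))).1.st = e.1 ∧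
        (P.bst f 0 c₀ (cnt β b t₀ (t₀ + k))).1.pt = e.2 ∧
        (P.bst f 0 c₀ (cnt β b t₀ (t₀ + k))).2 = l) := by
    intro k
    induction k with
    | zero =>
      intro _
      rw [add_zero, cnt_zero, Nat.sub_zero]
      refine ⟨fun x hx => ?_, fun _ => ⟨rfl, rfl, rfl⟩, fun h => absurd hb0 h⟩
      exact hτ x hx
    | succ k ih =>
      intro hk
      obtain ⟨i1, i2, i3⟩ := ih (by omega)
      have hn : n - k = (n - (k + 1)) + 1 := by omega
      have hents : M.ents f w ρ b (t₀ + k) (n - k) =
          (if β (t₀ + k + 1) = b ∧ β (t₀ + k) ≠ b then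
            [((M.conf f (t₀ + k + 1)).st, loc w ρ b (M.conf f (t₀ + k + 1)).pt)] else []) ++
            M.ents f w ρ b (t₀ + k + 1) (n - (k + 1)) := by
        rw [hn]
        rfl
      rw [← add_assoc]
      set i := cnt β b t₀ (t₀ + k) with hi
      set c := P.bst f 0 c₀ i with hc
      set C := M.conf f (t₀ + k) with hC
      have hC1 : M.conf f (t₀ + k + 1) = M.stepx C (M.bit f C) := rfl
      by_cases hbk : β (t₀ + k) = b
      · -- a step in the cube
        rw [cnt_succ_pos β b t₀ k hbk, ← hi]
        obtain ⟨j1, j2, j3⟩ := i2 hbk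
        have hin : InBox w (loc w ρ b C.pt) := (inbox (t₀ + k)).1 hbk
        have hsym : c.1.tape c.1.pt = C.tape C.pt := by
          rw [j2, i1 _ hin, gl]
        have hbit : f.coeff (P.pos (0 + i) c) = M.bit f C := by
          show f.coeff (M.pos c.1.st (c.1.tape c.1.pt)) = f.coeff (M.pos C.st (C.tape C.pt))
          rw [hsym, j1]
        have hnext : P.bst f 0 c₀ (i + 1) =
            if InBox w (M.stepx c.1 (M.bit f C)).pt then (M.stepx c.1 (M.bit f C), c.2) else
              match c.2 with
              | [] => (M.stepx c.1 (M.bit f C), [])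
              | e :: l => (⟨e.1, e.2, (M.stepx c.1 (M.bit f C)).tape⟩, l) := by
          show P.next (0 + i) c (f.coeff (P.pos (0 + i) c)) = _
          rw [hbit]
          rfl
        set C' := M.stepx c.1 (M.bit f C) with hC'
        have hst : C'.st = (M.conf f (t₀ + k + 1)).st := by
          rw [hC1]
          show M.next c.1.st (c.1.tape c.1.pt) _ = M.next C.st (C.tape C.pt) _
          rw [hsym, j1]
        have hpt : C'.pt = loc w ρ b (M.conf f (t₀ + k + 1)).pt := by
          rw [hC1]
          show shift c.1.pt (M.move c.1.st (c.1.tape c.1.pt) _) =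
            loc w ρ b (shift C.pt (M.move C.st (C.tape C.pt) _))
          rw [hsym, j1, j2, ls]
        have htape : ∀ x, InBox w x → C'.tape x =
            (M.conf f (t₀ + k + 1)).tape (glob w ρ b x) := by
          intro x hx
          rw [hC1]
          show Function.update c.1.tape c.1.pt (M.write c.1.st (c.1.tape c.1.pt) _) x =
            Function.update C.tape C.pt (M.write C.st (C.tape C.pt) _) (glob w ρ b x)
          rw [hsym, j1, j2]
          by_cases hxe : x = loc w ρ b C.pt
          · rw [hxe, gl, Function.update_self, Function.update_self]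
          · rw [Function.update_of_ne hxe, Function.update_of_ne, i1 x hx]
            intro h
            apply hxe
            rw [← h, lg]
        have hents' : M.ents f w ρ b (t₀ + k) (n - k) =
            M.ents f w ρ b (t₀ + k + 1) (n - (k + 1)) := by
          rw [hents, if_neg (fun h => h.2 hbk), List.nil_append]
        rw [hents'] at j3
        by_cases hbk' : β (t₀ + k + 1) = b
        · have hin' : InBox w C'.pt := by
            rw [hpt]
            exact (inbox (t₀ + k + 1)).1 hbk'
          rw [hnext, if_pos hin']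
          refine ⟨htape, fun _ => ⟨hst, hpt, j3⟩, fun h => absurd hbk' h⟩
        · have hin' : ¬ InBox w C'.pt := by
            rw [hpt]
            exact fun h => hbk' ((inbox (t₀ + k + 1)).2 h)
          rw [hnext, if_neg hin']
          cases hc2 : c.2 with
          | nil =>
            refine ⟨htape, fun h => absurd h hbk', fun _ e l hel => ?_⟩
            rw [← j3, hc2] at hel
            exact absurd hel (by simp)
          | cons e l =>
            refine ⟨htape, fun h => absurd h hbk', fun _ e' l' hel => ?_⟩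
            rw [← j3, hc2] at hel
            obtain ⟨h1, h2⟩ := List.cons.inj hel
            exact ⟨by rw [← h1], by rw [← h1], h2⟩
      · -- a step outside of the cube
        rw [cnt_succ_neg β b t₀ k hbk, ← hi]
        have htape : ∀ x, InBox w x → c.1.tape x =
            (M.conf f (t₀ + k + 1)).tape (glob w ρ b x) := by
          intro x hx
          rw [hC1]
          show c.1.tape x =
            Function.update C.tape C.pt (M.write C.st (C.tape C.pt) _) (glob w ρ b x)
          rw [Function.update_of_ne, i1 x hx]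
          intro h
          apply hbk
          rw [inbox]
          show InBox w (loc w ρ b C.pt)
          rw [← h, lg]
          exact hx
        by_cases hbk' : β (t₀ + k + 1) = b
        · refine ⟨htape, fun _ => ?_, fun h => absurd hbk' h⟩
          rw [if_pos ⟨hbk', hbk⟩] at hents
          exact i3 hbk _ _ hents
        · refine ⟨htape, fun h => absurd h hbk', fun _ e l hel => ?_⟩
          rw [if_neg (fun h => hbk' h.1), List.nil_append] at hents
          exact i3 hbk e l (hents.trans hel)
  -- the claims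
  have hout : ∀ k, k ≤ n → β (t₀ + k) = b →
      P.out (0 + cnt β b t₀ (t₀ + k)) (P.bst f 0 c₀ (cnt β b t₀ (t₀ + k)))
        (P.bans f 0 c₀ (cnt β b t₀ (t₀ + k))) = M.wr f (M.conf f (t₀ + k)) := by
    intro k hk hbk
    obtain ⟨i1, i2, -⟩ := inv k hk
    obtain ⟨j1, j2, -⟩ := i2 hbk
    have hin := (inbox (t₀ + k)).1 hbk
    set c := P.bst f 0 c₀ (cnt β b t₀ (t₀ + k)) with hc
    set C := M.conf f (t₀ + k) with hC
    have hsym : c.1.tape c.1.pt = C.tape C.pt := by
      rw [j2, i1 _ hin, gl]
    have hbit : P.bans f 0 c₀ (cnt β b t₀ (t₀ + k)) = M.bit f C := by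
      show f.coeff (M.pos c.1.st (c.1.tape c.1.pt)) = f.coeff (M.pos C.st (C.tape C.pt))
      rw [hsym, j1]
    rw [hbit]
    show M.out c.1.st (c.1.tape c.1.pt) _ = M.out C.st (C.tape C.pt) _
    rw [hsym, j1]
  constructor
  · rintro ⟨i, hir, hiN, hcl⟩
    rw [zero_add] at hiN
    obtain ⟨k, hk, hbk, hki⟩ := cnt_exists β b t₀ i (n + 1) (by rw [← add_assoc]; exact hiN)
    refine ⟨t₀ + k, by omega, by omega, hbk, ?_⟩
    rw [← hout k (by omega) hbk, hki]
    exact hcl
  · rintro ⟨t, ht1, ht2, hbt, hcl⟩
    obtain ⟨k, rfl⟩ := Nat.exists_eq_add_of_le ht1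
    have hk : k ≤ n := by omega
    have h1 : cnt β b t₀ (t₀ + k) < cnt β b t₀ (t₀ + n + 1) := by
      have h2 := cnt_succ_pos β b t₀ k hbt
      have h3 := cnt_mono β b t₀ (t₀ + k + 1) (t₀ + n + 1) (by omega)
      omega
    refine ⟨cnt β b t₀ (t₀ + k), by omega, by rw [zero_add]; exact h1, ?_⟩
    rw [hout k hk hbt]
    exact hcl

end Pool.TSF
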