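import Pool.Agent.OH.Stmts

/-!
The union bound over the advices.
-/

set_option autoImplicit false

namespace Pool.TSF

open Polynomial

namespace UNIAux

lemma union_bound {A C : Type} [Fintype A] [DecidableEq C] (E : A → Finset C) (u s0 μ : ℕ)
    (hA : Fintype.card A ≤ 2 ^ u) (hE : ∀ x, 2 ^ (u + s0) * (E x).card ≤ 2 ^ μ) :
    2 ^ s0 * (Finset.univ.biUnion E).card ≤ 2 ^ μ := by
  have h1 : (Finset.univ.biUnion E).card ≤ ∑ x, (E x).card := Finset.card_biUnion_le
  have h2 : 2 ^ u * (2 ^ s0 * (Finset.univ.biUnion E).card) ≤ 2 ^ u * 2 ^ μ := by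
    calc 2 ^ u * (2 ^ s0 * (Finset.univ.biUnion E).card)
        ≤ 2 ^ u * (2 ^ s0 * ∑ x, (E x).card) := by gcongr
      _ = ∑ x, 2 ^ (u + s0) * (E x).card := by
          rw [← Finset.mul_sum, pow_add]; ring
      _ ≤ ∑ _x : A, 2 ^ μ := Finset.sum_le_sum fun x _ => hE x
      _ = Fintype.card A * 2 ^ μ := by rw [Finset.sum_const, smul_eq_mul, Finset.card_univ]
      _ ≤ 2 ^ u * 2 ^ μ := by gcongr
  exact Nat.le_of_mul_le_mul_left h2 (by positivity)

variable {V Γ : Type} {d : ℕ}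

/-- the start of the simulation -/
def c0 {w e : ℕ} (v : V) (x : Fin d → Fin w) (l : Fin e → V × (Fin d → Fin w))
    (τ : (Fin d → ℤ) → Γ) : Conf V Γ d × List (V × (Fin d → ℤ)) :=
  (⟨v, ip x, τ⟩, List.ofFn (fun i => ((l i).1, ip (l i).2)))

/-- the event -/
def Ev (M : Mach V Γ d) (μ a b r : ℕ) (h : (ZMod 2)[X]) {w e : ℕ} (q k' : ℕ) (v : V)
    (x : Fin d → Fin w) (l : Fin e → V × (Fin d → Fin w)) (τ : (Fin d → ℤ) → Γ)
    (c : Fin μ → ZMod 2) : Prop :=
  (M.sim w (c0 v x l τ)).Block μ a b h q 0 (c0 v x l τ) r k' c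

/-- a point of the box comes from `Fin d → Fin w` -/
lemma exists_ip {w : ℕ} {x : Fin d → ℤ} (hx : InBox w x) : ∃ y : Fin d → Fin w, ip y = x := by
  refine ⟨fun i => ⟨(x i).toNat, ?_⟩, ?_⟩
  · have := hx i; omega
  · funext i
    have := hx i
    simp only [ip]
    omega

lemma inBox_ip {w : ℕ} (y : Fin d → Fin w) : InBox w (ip y) := by
  intro i
  simp only [ip]
  have := (y i).2
  omega

lemma tb_ip {w : ℕ} (γ₀ : Γ) (θ : (Fin d → Fin w) → Γ) (y : Fin d → Fin w) :
    tb w γ₀ θ (ip y) = θ y := by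
  have h : ∀ i, 0 ≤ (ip y) i ∧ ((ip y) i).toNat < w := by
    intro i
    simp only [ip]
    have := (y i).2
    omega
  rw [tb, dif_pos h]
  congr 1

/-- a list with values in the box is an `ofFn` -/
lemma exists_list {w : ℕ} (L : List (V × (Fin d → ℤ))) (hL : ∀ e ∈ L, InBox w e.2) :
    ∃ l : Fin L.length → V × (Fin d → Fin w), List.ofFn (fun i => ((l i).1, ip (l i).2)) = L := by
  have h : ∀ i : Fin L.length, ∃ y : Fin d → Fin w, ip y = (L.get i).2 := fun i =>
    exists_ip (hL _ (List.get_mem L i))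
  choose y hy using h
  refine ⟨fun i => ((L.get i).1, y i), ?_⟩
  conv_rhs => rw [← List.ofFn_get L]
  congr 1
  funext i
  simp only [hy]

open Classical in
/-- a successful run has an advice -/
lemma exists_adv (hBOX : Stmt_BOX) (hRHO : Stmt_RHO) (hGRP : Stmt_GRP) (hSIM : Stmt_SIM)
    (hENT : Stmt_ENT) (hBLK : Stmt_BLK) (M : Mach V Γ d)
    (μ a b r T w em lam s0 kap : ℕ) (h : (ZMod 2)[X]) (hb : b ≤ μ) (hT : 1 ≤ T) (hr : 1 ≤ r)
    (hem : 2 ≤ em) (hw : 0 < w)
    (htot : (T / w + 1 + T / r + T / w / em) * (lam + s0) + T / w * lam +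
      (T / r + T / w / em) * kap ≤ b - a)
    (c : Fin μ → ZMod 2) (hs : M.Succ T μ (pol μ c) h) :
    ∃ e ≤ em, ∃ q ≤ r, ∃ (v : V) (x : Fin d → Fin w) (l : Fin e → V × (Fin d → Fin w)),
      Ev M μ a b r h q ((e + 1) * lam + s0) v x l (fun _ => M.blank) c ∨
      ∃ θ : (Fin d → Fin w) → Γ,
        Ev M μ a b r h q ((e + 1) * lam + s0 + kap) v x l (tb w M.blank θ) c := by
  set f := pol μ c * h with hf
  -- the times of the claims
  have hcl : ∀ j : Fin μ, ∃ t < T, (μ, (j : ℕ), c j) ∈ M.wr f (M.conf f t) := by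
    intro j
    have h1 := (hs j j.2 (c j)).mpr (Prog.pol_coeff μ c j).symm
    exact h1
  choose tm htT htm using hcl
  -- the shift
  obtain ⟨ρ, hρw, hρ⟩ := hRHO d w T (fun t => (M.conf f t).pt)
    (fun t => M.move (M.conf f t).st ((M.conf f t).tape (M.conf f t).pt) (M.bit f (M.conf f t)))
    hw (fun t => rfl)
  set β : ℕ → Fin d → ℤ := M.bk f w (ρ : ℤ) with hβ
  have hchg : chg β T ≤ T / w := by
    rw [Nat.le_div_iff_mul_le hw, mul_comm]
    exact hρ
  -- the group
  have hcard : Fintype.card (Prog.mid μ a b) = b - a := by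
    rw [Fintype.card_coe, Prog.card_mid μ a b hb]
  obtain ⟨B, t₀, n, fresh, hB, hnT, hcnt, hecnt, hfresh, hnum⟩ := hGRP (Fin d → ℤ)
    (Prog.mid μ a b) β T r em lam s0 kap (fun j => tm j) hT hr hem (fun j => htT j) (by
      rw [hcard]
      refine le_trans ?_ htot
      have h1 : chg β T / em ≤ T / w / em := Nat.div_le_div_right hchg
      gcongr)
  -- the advice
  have hloc : InBox w (loc w (ρ : ℤ) B (M.conf f t₀).pt) :=
    ((hBOX d w ρ B (M.conf f t₀).pt hw).1).2 hB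
  obtain ⟨x, hx⟩ := exists_ip hloc
  obtain ⟨hlen, hbox⟩ := hENT V Γ d M f w ρ B t₀ n hw
  obtain ⟨e, he, l, hl⟩ : ∃ e, e = (M.ents f w (ρ : ℤ) B t₀ n).length ∧
      ∃ l : Fin e → V × (Fin d → Fin w), List.ofFn (fun i => ((l i).1, ip (l i).2)) =
        M.ents f w (ρ : ℤ) B t₀ n := ⟨_, rfl, exists_list _ hbox⟩
  set q := cnt β B t₀ (t₀ + n + 1) with hq
  have hlen' : e = ecnt β B t₀ n := he.trans hlen
  have hee : e ≤ em := by rw [hlen']; exact hecnt
  -- the event for a tape which agrees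
  have key : ∀ (τ : (Fin d → ℤ) → Γ) (k' : ℕ),
      (∀ y, InBox w y → τ y = (M.conf f t₀).tape (glob w (ρ : ℤ) B y)) →
      k' ≤ (Finset.univ.filter (fun j : Prog.mid μ a b => t₀ ≤ tm j ∧ tm j ≤ t₀ + n ∧
        β (tm j) = B)).card →
      Ev M μ a b r h q k' (M.conf f t₀).st x l τ c := by
    intro τ k' hτ hk'
    have hsim := hSIM V Γ d M f w ρ B t₀ n r τ hw hB hτ hcnt
    have hc0 : c0 (M.conf f t₀).st x l τ =
        (⟨(M.conf f t₀).st, loc w ρ B (M.conf f t₀).pt, τ⟩, M.ents f w ρ B t₀ n) := by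
      rw [c0, hx]
      exact Prod.ext rfl hl
    rw [← hc0] at hsim
    rw [Ev]
    constructor
    · intro j _ _ y hy
      obtain ⟨t, ht1, ht2, ht3, ht4⟩ := (hsim μ j y).1 hy
      have h1 : (μ, (j : ℕ), y) ∈ M.claims f T := ⟨t, by omega, ht4⟩
      rw [(hs j j.2 y).mp h1, Prog.pol_coeff]
    · obtain ⟨K, hK, hKc⟩ := Finset.exists_subset_card_eq hk'
      refine ⟨K.map (Function.Embedding.subtype _), by rw [Finset.card_map, hKc], ?_, ?_⟩
      · intro j hj
        rw [Finset.mem_map] at hj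
        obtain ⟨j', _, rfl⟩ := hj
        exact (Finset.mem_filter.1 j'.2).2
      · intro j hj
        rw [Finset.mem_map] at hj
        obtain ⟨j', hj', rfl⟩ := hj
        have h1 := hK hj'
        rw [Finset.mem_filter] at h1
        refine ⟨c j', (hsim μ j' (c j')).2 ⟨tm j', h1.2.1, h1.2.2.1, h1.2.2.2, htm j'⟩⟩
  refine ⟨e, hee, q, hcnt, (M.conf f t₀).st, x, l, ?_⟩
  rw [← hlen'] at hnum
  rcases Bool.eq_false_or_eq_true fresh with hfr | hfr
  · left
    apply key
    · intro y hy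
      exact (hBLK V Γ d M f w ρ B t₀ hw (hfresh hfr) y hy).symm
    · rw [hfr, if_pos rfl, add_zero] at hnum
      convert hnum
  · right
    refine ⟨fun y => (M.conf f t₀).tape (glob w (ρ : ℤ) B (ip y)), ?_⟩
    apply key
    · intro y hy
      obtain ⟨z, rfl⟩ := exists_ip hy
      rw [tb_ip]
    · rw [hfr, if_neg (by simp)] at hnum
      convert hnum

open Classical in
lemma card_ev (M : Mach V Γ d) (μ μ' a b r k : ℕ) (h : (ZMod 2)[X]) (hdeg : h.natDegree ≤ μ')
    (hgood : ¬ Bad μ (μ + μ') a b r k h) {w e : ℕ} (q k' : ℕ) (hk : k' ≤ k) (v : V)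
    (x : Fin d → Fin w) (l : Fin e → V × (Fin d → Fin w)) (τ : (Fin d → ℤ) → Γ) :
    2 ^ k' * (Finset.univ.filter (Ev M μ a b r h q k' v x l τ)).card ≤ 2 ^ μ :=
  (M.sim w (c0 v x l τ)).card_block μ μ' a b r k k' h hdeg hgood q 0 (c0 v x l τ) hk

end UNIAux

open UNIAux in
open Classical in
theorem uni (hBOX : Stmt_BOX) (hRHO : Stmt_RHO) (hGRP : Stmt_GRP) (hSIM : Stmt_SIM)
    (hENT : Stmt_ENT) (hBLK : Stmt_BLK) : Stmt_UNI := by
  intro V Γ _ _ d M μ μ' a b r k T w em lam s0 kap h hdeg hgood hb hT hr hem hw hV hΓ hk htot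
  -- the numbers of advices
  have hA1 : ∀ e, Fintype.card (V × (Fin d → Fin w) × (Fin e → V × (Fin d → Fin w))) ≤
      2 ^ ((e + 1) * lam) := by
    intro e
    rw [Fintype.card_prod, Fintype.card_prod, Fintype.card_fun, Fintype.card_fun,
      Fintype.card_prod, Fintype.card_fun, Fintype.card_fin, Fintype.card_fin, Fintype.card_fin]
    calc Fintype.card V * (w ^ d * (Fintype.card V * w ^ d) ^ e)
        = (Fintype.card V * w ^ d) ^ (e + 1) := by rw [pow_succ]; ring
      _ ≤ (2 ^ lam) ^ (e + 1) := by gcongr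
      _ = 2 ^ ((e + 1) * lam) := by rw [← pow_mul, mul_comm]
  have hA2 : ∀ e, Fintype.card ((V × (Fin d → Fin w) × (Fin e → V × (Fin d → Fin w))) ×
      ((Fin d → Fin w) → Γ)) ≤ 2 ^ ((e + 1) * lam + kap) := by
    intro e
    rw [Fintype.card_prod, Fintype.card_fun (α := Fin d → Fin w) (β := Γ), Fintype.card_fun,
      Fintype.card_fin, Fintype.card_fin, pow_add]
    exact Nat.mul_le_mul (hA1 e) hΓ
  -- the events
  let E1 : ℕ → ℕ → Finset (Fin μ → ZMod 2) := fun e q => Finset.univ.biUnion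
    (fun A : V × (Fin d → Fin w) × (Fin e → V × (Fin d → Fin w)) => Finset.univ.filter
      (Ev M μ a b r h q ((e + 1) * lam + s0) A.1 A.2.1 A.2.2 (fun _ => M.blank)))
  let E2 : ℕ → ℕ → Finset (Fin μ → ZMod 2) := fun e q => Finset.univ.biUnion
    (fun A : (V × (Fin d → Fin w) × (Fin e → V × (Fin d → Fin w))) × ((Fin d → Fin w) → Γ) =>
      Finset.univ.filter
      (Ev M μ a b r h q ((e + 1) * lam + s0 + kap) A.1.1 A.1.2.1 A.1.2.2 (tb w M.blank A.2)))
  have hle : ∀ e ≤ em, (e + 1) * lam + s0 + kap ≤ k := by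
    intro e he
    have h1 : (e + 1) * lam ≤ (em + 1) * lam := Nat.mul_le_mul_right _ (by omega)
    omega
  have hE1 : ∀ e ≤ em, ∀ q, 2 ^ s0 * (E1 e q).card ≤ 2 ^ μ := by
    intro e he q
    apply union_bound _ ((e + 1) * lam) s0 μ (hA1 e)
    intro A
    exact card_ev M μ μ' a b r k h hdeg hgood q _ (by have := hle e he; omega) _ _ _ _
  have hE2 : ∀ e ≤ em, ∀ q, 2 ^ s0 * (E2 e q).card ≤ 2 ^ μ := by
    intro e he q
    apply union_bound _ ((e + 1) * lam + kap) s0 μ (hA2 e)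
    intro A
    have h1 := card_ev M μ μ' a b r k h hdeg hgood q ((e + 1) * lam + s0 + kap) (hle e he)
      A.1.1 A.1.2.1 A.1.2.2 (tb w M.blank A.2)
    have h2 : (e + 1) * lam + kap + s0 = (e + 1) * lam + s0 + kap := by omega
    rw [h2]
    exact h1
  have hsub : (Finset.univ.filter (fun c : Fin μ → ZMod 2 => M.Succ T μ (pol μ c) h)) ⊆
      (Finset.range (em + 1) ×ˢ Finset.range (r + 1)).biUnion
        (fun p => E1 p.1 p.2 ∪ E2 p.1 p.2) := by
    intro c hc
    rw [Finset.mem_filter] at hc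
    obtain ⟨e, he, q, hq, v, x, l, hev⟩ := exists_adv hBOX hRHO hGRP hSIM hENT hBLK M μ a b r T w
      em lam s0 kap h hb hT hr hem hw htot c hc.2
    rw [Finset.mem_biUnion]
    refine ⟨(e, q), ?_, ?_⟩
    · rw [Finset.mem_product, Finset.mem_range, Finset.mem_range]
      exact ⟨by omega, by omega⟩
    · rw [Finset.mem_union]
      rcases hev with h1 | ⟨θ, h1⟩
      · left
        rw [Finset.mem_biUnion]
        refine ⟨(v, x, l), Finset.mem_univ _, ?_⟩
        rw [Finset.mem_filter]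
        exact ⟨Finset.mem_univ _, h1⟩
      · right
        rw [Finset.mem_biUnion]
        refine ⟨((v, x, l), θ), Finset.mem_univ _, ?_⟩
        rw [Finset.mem_filter]
        exact ⟨Finset.mem_univ _, h1⟩
  calc 2 ^ s0 * (Finset.univ.filter (fun c : Fin μ → ZMod 2 => M.Succ T μ (pol μ c) h)).card
      ≤ 2 ^ s0 * ∑ p ∈ Finset.range (em + 1) ×ˢ Finset.range (r + 1),
          (E1 p.1 p.2 ∪ E2 p.1 p.2).card := by
        apply Nat.mul_le_mul_left
        exact (Finset.card_le_card hsub).trans Finset.card_biUnion_le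
    _ ≤ ∑ p ∈ Finset.range (em + 1) ×ˢ Finset.range (r + 1),
          (2 ^ s0 * (E1 p.1 p.2).card + 2 ^ s0 * (E2 p.1 p.2).card) := by
        rw [Finset.mul_sum]
        apply Finset.sum_le_sum
        intro p _
        rw [← mul_add]
        exact Nat.mul_le_mul_left _ (Finset.card_union_le _ _)
    _ ≤ ∑ p ∈ Finset.range (em + 1) ×ˢ Finset.range (r + 1), (2 ^ μ + 2 ^ μ) := by
        apply Finset.sum_le_sum
        intro p hp
        rw [Finset.mem_product, Finset.mem_range, Finset.mem_range] at hp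
        exact Nat.add_le_add (hE1 p.1 (by omega) p.2) (hE2 p.1 (by omega) p.2)
    _ = 2 * (em + 1) * (r + 1) * 2 ^ μ := by
        rw [Finset.sum_const, smul_eq_mul, Finset.card_product, Finset.card_range,
          Finset.card_range]
        ring

end Pool.TSF
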