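import Pool.Agent.OH.Box
import Pool.Agent.OH.Rho
import Pool.Agent.OH.Grp
import Pool.Agent.OH.Sim
import Pool.Agent.OH.Ent
import Pool.Agent.OH.Blk
import Pool.Agent.OH.Sho
import Pool.Agent.OH.Pair
import Pool.Agent.OH.Ari
import Pool.Agent.OH.Uni
import Pool.Agent.OH.Fin

/-!
The main theorem of the project OneHead.
-/

set_option autoImplicit false

namespace Pool.TSF

theorem oneHead : Stmt_FIN :=
  fin (uni box rho grp (simul box) (ent box) (blk_blank box)) sho pair ari

end Pool.TSF
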