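import Pool.Agent.OH.Defs

/-!
The statements of the modules (project OneHead). Proofs: `Pool/Agent/OH/PAPER.md`.
-/

set_option autoImplicit false

namespace Pool.TSF

open Polynomial

/-- **Cubes.** Elementary facts. -/
def Stmt_BOX : Prop := ∀ (d w : ℕ) (ρ : ℤ) (b x : Fin d → ℤ), 0 < w →
  (InBox w (loc w ρ b x) ↔ blk w ρ x = b) ∧ glob w ρ b (loc w ρ b x) = x ∧
    loc w ρ b (glob w ρ b x) = x ∧ (∀ mv : Option (Fin d × Bool),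
      loc w ρ b (shift x mv) = shift (loc w ρ b x) mv)

/-- **Shift.** For some shift the path changes the cube in at most `T / w` steps. -/
def Stmt_RHO : Prop := ∀ (d w T : ℕ) (p : ℕ → Fin d → ℤ) (mv : ℕ → Option (Fin d × Bool)), 0 < w →
  (∀ t, p (t + 1) = shift (p t) (mv t)) →
  ∃ ρ : ℕ, ρ < w ∧ w * chg (fun t => blk w (ρ : ℤ) (p t)) T ≤ T

open Classical in
/-- **Groups.** Weighted pigeonhole principle for the groups of steps in one cube. -/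
def Stmt_GRP : Prop := ∀ (B J : Type) [Fintype J] (β : ℕ → B) (T r em lam s0 kap : ℕ) (tm : J → ℕ),
  1 ≤ T → 1 ≤ r → 2 ≤ em → (∀ j, tm j < T) →
  (chg β T + 1 + T / r + chg β T / em) * (lam + s0) + chg β T * lam +
    (T / r + chg β T / em) * kap ≤ Fintype.card J →
  ∃ (b : B) (t₀ n : ℕ) (fresh : Bool), β t₀ = b ∧ t₀ + n < T ∧ cnt β b t₀ (t₀ + n + 1) ≤ r ∧
    ecnt β b t₀ n ≤ em ∧ (fresh = true → ∀ t < t₀, β t ≠ b) ∧
    (ecnt β b t₀ n + 1) * lam + s0 + (if fresh then 0 else kap) ≤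
      (Finset.univ.filter (fun j : J => t₀ ≤ tm j ∧ tm j ≤ t₀ + n ∧ β (tm j) = b)).card

/-- **Simulation.** The steps of the machine in the cube `b` at the times `t₀, ..., t₀ + n` are
simulated by the local program. -/
def Stmt_SIM : Prop := ∀ (V Γ : Type) (d : ℕ) (M : Mach V Γ d) (f : (ZMod 2)[X]) (w : ℕ) (ρ : ℤ)
  (b : Fin d → ℤ) (t₀ n r : ℕ) (τ : (Fin d → ℤ) → Γ), 0 < w → M.bk f w ρ t₀ = b →
  (∀ x, InBox w x → τ x = (M.conf f t₀).tape (glob w ρ b x)) →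
  cnt (M.bk f w ρ) b t₀ (t₀ + n + 1) ≤ r → ∀ (D j : ℕ) (y : ZMod 2),
  ((M.sim w (⟨(M.conf f t₀).st, loc w ρ b (M.conf f t₀).pt, τ⟩, M.ents f w ρ b t₀ n)).bclaim f
      (cnt (M.bk f w ρ) b t₀ (t₀ + n + 1)) 0
      (⟨(M.conf f t₀).st, loc w ρ b (M.conf f t₀).pt, τ⟩, M.ents f w ρ b t₀ n) r D j y ↔
    ∃ t, t₀ ≤ t ∧ t ≤ t₀ + n ∧ M.bk f w ρ t = b ∧ (D, j, y) ∈ M.wr f (M.conf f t))

/-- the entries: length, and positions in the cube -/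
def Stmt_ENT : Prop := ∀ (V Γ : Type) (d : ℕ) (M : Mach V Γ d) (f : (ZMod 2)[X]) (w : ℕ) (ρ : ℤ)
  (b : Fin d → ℤ) (t n : ℕ), 0 < w →
  (M.ents f w ρ b t n).length = ecnt (M.bk f w ρ) b t n ∧
    ∀ e ∈ M.ents f w ρ b t n, InBox w e.2

/-- a cube which has not been visited is blank -/
def Stmt_BLK : Prop := ∀ (V Γ : Type) (d : ℕ) (M : Mach V Γ d) (f : (ZMod 2)[X]) (w : ℕ) (ρ : ℤ)
  (b : Fin d → ℤ) (t₀ : ℕ), 0 < w → (∀ t < t₀, M.bk f w ρ t ≠ b) →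
  ∀ x, InBox w x → (M.conf f t₀).tape (glob w ρ b x) = M.blank

open Classical in
/-- **Union bound.** The number of the `g` for which the machine succeeds, for good `h`. -/
def Stmt_UNI : Prop := ∀ (V Γ : Type) [Fintype V] [Fintype Γ] (d : ℕ) (M : Mach V Γ d)
  (μ μ' a b r k T w em lam s0 kap : ℕ) (h : (ZMod 2)[X]), h.natDegree ≤ μ' →
  ¬ Bad μ (μ + μ') a b r k h → b ≤ μ → 1 ≤ T → 1 ≤ r → 2 ≤ em → 0 < w →
  Fintype.card V * w ^ d ≤ 2 ^ lam → Fintype.card Γ ^ (w ^ d) ≤ 2 ^ kap →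
  (em + 1) * lam + s0 + kap ≤ k →
  (T / w + 1 + T / r + T / w / em) * (lam + s0) + T / w * lam + (T / r + T / w / em) * kap ≤
    b - a →
  2 ^ s0 * (Finset.univ.filter (fun c : Fin μ → ZMod 2 => M.Succ T μ (pol μ c) h)).card ≤
    2 * (em + 1) * (r + 1) * 2 ^ μ

open Classical in
/-- Short times. -/
def Stmt_SHO : Prop := ∀ (V Γ : Type) (d : ℕ) (M : Mach V Γ d)
  (μ μ' a b r k k' T : ℕ) (h : (ZMod 2)[X]), h.natDegree ≤ μ' →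
  ¬ Bad μ (μ + μ') a b r k h → b ≤ μ → T ≤ r → k' ≤ k → k' ≤ b - a →
  2 ^ k' * (Finset.univ.filter (fun c : Fin μ → ZMod 2 => M.Succ T μ (pol μ c) h)).card ≤ 2 ^ μ

open Classical in
/-- **Pairs.** From a bound for the good `h` to a bound for random products of irreducibles. -/
def Stmt_PAIR : Prop := ∀ (S : ℕ → (ZMod 2)[X] → (ZMod 2)[X] → Prop) (m s k' G : ℕ), 30 ≤ s →
  96 * s ≤ m → m + 1 ≤ 96 * (s + 1) →
  (∀ h : (ZMod 2)[X], h.natDegree ≤ m + 1 →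
    ¬ Bad m (m + (m + 1)) (32 * s) (m - 32 * s) s s h →
    2 ^ k' * (Finset.univ.filter (fun c : Fin m → ZMod 2 => S m (pol m c) h)).card ≤ G * 2 ^ m) →
  (∀ h : (ZMod 2)[X], h.natDegree ≤ m →
    ¬ Bad (m + 1) (m + 1 + m) (32 * s) (m + 1 - 32 * s) s s h →
    2 ^ k' * (Finset.univ.filter (fun c : Fin (m + 1) → ZMod 2 => S (m + 1) (pol (m + 1) c) h)).card
      ≤ G * 2 ^ (m + 1)) →
  (Prog.irrF m).card * (Prog.irrF (m + 1)).card ≤ (2 * m + 1) *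
    ((Prog.irrF m ×ˢ Prog.irrF (m + 1)).filter (fun p => S m p.1 p.2 ∨ S (m + 1) p.2 p.1)).card →
  2 ^ k' ≤ 4 * (2 * m + 1) ^ 2 * G

/-- **Arithmetic.** -/
def Stmt_ARI : Prop := ∀ (d n s T A Γ : ℕ), 1 ≤ d → 30 ≤ s → n ≤ 200 * s → 2 * s ≤ n → 1 ≤ A →
  2 ≤ Γ → s ≤ T →
  (∀ w em lam s0 kap : ℕ, 0 < w → 2 ≤ em → A * w ^ d ≤ 2 ^ lam → Γ ^ (w ^ d) ≤ 2 ^ kap →
    (em + 1) * lam + s0 + kap ≤ s →
    (T / w + 1 + T / s + T / w / em) * (lam + s0) + T / w * lam + (T / s + T / w / em) * kap ≤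
      32 * s →
    2 ^ s0 ≤ 4 * n ^ 2 * (2 * (em + 1) * (s + 1))) →
  (n : ℝ) ^ (d + 2) ≤
    (300000 * d * T) ^ (d + 1) * Real.logb 2 Γ * (Real.logb 2 A + Real.logb 2 n) ^ d

/-- **Main theorem.** -/
def Stmt_FIN : Prop := ∀ (m : ℕ), 2880 ≤ m → ∀ (d : ℕ), 1 ≤ d → ∀ (V Γ Ω : Type) [Fintype V]
  [Fintype Γ] [Fintype Ω], 2 ≤ Fintype.card Γ → ∀ (p : Ω → ℝ), (∀ ω, 0 ≤ p ω) → ∑ ω, p ω = 1 →
  ∀ (M : Ω → Mach V Γ d) (T : ℕ),
  (∀ g h : (ZMod 2)[X], Irreducible g → Irreducible h → g.natDegree = m → h.natDegree = m + 1 →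
    (1 : ℝ) / (2 * m + 1) ≤
      ∑ ω, (open Classical in if (M ω).Finds (g * h) T then p ω else 0)) →
  (2 * m + 1 : ℝ) ^ (d + 2) ≤ (300000 * d * T) ^ (d + 1) * Real.logb 2 (Fintype.card Γ) *
    (Real.logb 2 (Fintype.card V) + Real.logb 2 (2 * m + 1)) ^ d

end Pool.TSF
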